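import Pool.Agent.Lib.MP_1c575b_co.Psi

set_option autoImplicit false

namespace Pool.Agent.Lib.MP_1c575b_co

open Finset Filter Topology

open Classical in
/-- forcibly connected partitions without a part equal to one -/
noncomputable def X1 (N : ℕ) : Finset (Multiset ℕ) := (F1 N).filter (fun s => 1 ∉ s)

open Classical in
lemma X1_subset (N M K R : ℕ) : X1 N ⊆
    ((Finset.Icc 2 R).biUnion
      (fun r => (F1 N).filter (fun s => 1 ∉ s ∧ M ≤ s.count r ∧ ∃ x ∈ s, r < x))) ∪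
      (CW N M K R ∪ (Pt N).filter (fun s => s.toFinset.card ≤ K + R)) := by
  intro s hs
  unfold X1 at hs
  rw [Finset.mem_filter] at hs
  obtain ⟨hs, h1⟩ := hs
  have hs' := hs
  rw [mem_F1] at hs
  obtain ⟨hpos, hsum, hFC⟩ := hs
  rw [Finset.mem_union, Finset.mem_union, Finset.mem_biUnion, mem_CW, Finset.mem_filter, mem_Pt]
  by_cases hK : s.toFinset.card ≤ K + R
  · exact Or.inr (Or.inr ⟨⟨hpos, hsum⟩, hK⟩)
  · push Not at hK
    have hx : ∃ x ∈ s, R < x := by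
      by_contra hc
      push Not at hc
      have hsub : s.toFinset ⊆ Finset.Icc 1 R := by
        intro x hx
        rw [Multiset.mem_toFinset] at hx
        rw [Finset.mem_Icc]
        exact ⟨hpos x hx, hc x hx⟩
      have := Finset.card_le_card hsub
      simp at this
      omega
    by_cases hr : ∃ r ∈ Finset.Icc 2 R, M ≤ s.count r
    · obtain ⟨r, hr, hM⟩ := hr
      refine Or.inl ⟨r, hr, ?_⟩
      rw [Finset.mem_filter]
      obtain ⟨x, hx, hRx⟩ := hx
      rw [Finset.mem_Icc] at hr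
      exact ⟨hs', h1, hM, x, hx, by omega⟩
    · push Not at hr
      refine Or.inr (Or.inl ⟨⟨hpos, hsum, hFC.1⟩, ?_, hK.le⟩)
      intro i hi1 hi2
      exact hr i (Finset.mem_Icc.mpr ⟨hi1, hi2⟩)

open Classical in
lemma A_bound {N M R : ℕ} :
    (M - R) * (∑ r ∈ Finset.Icc 2 R,
      ((F1 N).filter (fun s => 1 ∉ s ∧ M ≤ s.count r ∧ ∃ x ∈ s, r < x)).card)
      ≤ R * (R + 1) * (F1 N).card := by
  rw [Finset.mul_sum]
  have h1 : ∀ r ∈ Finset.Icc 2 R, (M - R) *
      ((F1 N).filter (fun s => 1 ∉ s ∧ M ≤ s.count r ∧ ∃ x ∈ s, r < x)).card ≤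
        (R + 1) * (F1 N).card := by
    intro r hr
    rw [Finset.mem_Icc] at hr
    have h := phi_bound N M r hr.1
    calc _ ≤ (M - r) * ((F1 N).filter (fun s => 1 ∉ s ∧ M ≤ s.count r ∧ ∃ x ∈ s, r < x)).card := by
          apply Nat.mul_le_mul_right; omega
      _ ≤ (r + 1) * (F1 N).card := by convert h
      _ ≤ (R + 1) * (F1 N).card := by apply Nat.mul_le_mul_right; omega
  have h2 := Finset.sum_le_card_nsmul _ _ _ h1
  rw [Nat.card_Icc, smul_eq_mul] at h2
  calc _ ≤ _ := h2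
    _ ≤ R * ((R + 1) * (F1 N).card) := by apply Nat.mul_le_mul_right; omega
    _ = R * (R + 1) * (F1 N).card := by ring

lemma main_bound {n L : ℕ} (hL : 512 ≤ L) (h1 : L ^ 16 ≤ 2 * n) (h2 : 2 * n < (L + 1) ^ 16)
    (hh : ∑ i ∈ Finset.Icc 1 (2 * n), (1 : ℝ) / i ≤ (L / 512 : ℕ)) :
    (X1 (2 * n)).card * (L - 1) ≤ 3 * (F1 (2 * n)).card := by
  classical
  set N := 2 * n with hN
  set h := L / 512 with hhdef
  have hh1 : 1 ≤ h := by omega
  have hN1 : 1 ≤ N := le_trans (Nat.one_le_pow _ _ (by omega)) h1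
  set F := (F1 N).card with hF
  set G := (GN N).card with hG
  have hpsi : G ≤ F * ((N + 1) * (N + 1)) ^ (4 * h + 1) := psi_bound hh hh1 hN1
  have hNN : (N + 1) * (N + 1) ≤ L ^ 64 := by
    have h3 : N + 1 ≤ (L + 1) ^ 16 := h2
    have h4 : L + 1 ≤ L ^ 2 := by nlinarith
    have h5 : (L + 1) ^ 16 ≤ (L ^ 2) ^ 16 := Nat.pow_le_pow_left h4 16
    calc (N + 1) * (N + 1) ≤ (L ^ 2) ^ 16 * (L ^ 2) ^ 16 :=
          Nat.mul_le_mul (h3.trans h5) (h3.trans h5)
      _ = L ^ 64 := by ring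
  -- the three parts
  set a := ∑ r ∈ Finset.Icc 2 L,
      ((F1 N).filter (fun s => 1 ∉ s ∧ L ^ 3 ≤ s.count r ∧ ∃ x ∈ s, r < x)).card with ha
  set b := (CW N (L ^ 3) (L ^ 6) L).card with hb
  set c := ((Pt N).filter (fun s => s.toFinset.card ≤ L ^ 6 + L)).card with hc
  have hX : (X1 N).card ≤ a + (b + c) := by
    refine (Finset.card_le_card (X1_subset N (L ^ 3) (L ^ 6) L)).trans ?_
    refine (Finset.card_union_le _ _).trans ?_
    refine Nat.add_le_add Finset.card_biUnion_le (Finset.card_union_le _ _)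
  -- part a
  have hA : a * (L - 1) ≤ F := by
    have h3 : (L ^ 3 - L) * a ≤ L * (L + 1) * F := by
      have := A_bound (N := N) (M := L ^ 3) (R := L)
      convert this
    have h4 : L ^ 3 - L = L * (L + 1) * (L - 1) := by
      obtain ⟨k, rfl⟩ := Nat.exists_eq_add_of_le (show 1 ≤ L by omega)
      have : 1 + k - 1 = k := by omega
      rw [this]
      have h5 : (1 + k) ^ 3 = (1 + k) * (1 + k + 1) * k + (1 + k) := by ring
      rw [h5]
      omega
    rw [h4] at h3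
    have h6 : L * (L + 1) * (a * (L - 1)) ≤ L * (L + 1) * F := by
      calc L * (L + 1) * (a * (L - 1)) = L * (L + 1) * (L - 1) * a := by ring
        _ ≤ _ := h3
    exact Nat.le_of_mul_le_mul_left h6 (by positivity)
  -- part b
  have hB : b * L ≤ F := by
    obtain ⟨k, hk⟩ := Nat.exists_eq_add_of_le (show 1 ≤ L by omega)
    have h3 : (L ^ 6) ^ k * b ≤ (L ^ 3 * L) ^ k * G := by
      have := weird_bound N (L ^ 3) (L ^ 6) k L (by omega)
      have hk' : k + 1 = L := by omega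
      rw [hk'] at this
      exact this
    have h4 : (L ^ 3 * L) ^ k * G ≤ (L ^ 3 * L) ^ k * (F * (L ^ 64) ^ (4 * h + 1)) :=
      Nat.mul_le_mul_left _ (hpsi.trans (Nat.mul_le_mul_left _ (Nat.pow_le_pow_left hNN _)))
    have h5 : (L ^ 3 * L) ^ k * (L ^ 64) ^ (4 * h + 1) * L ≤ (L ^ 6) ^ k := by
      have e1 : (L ^ 3 * L) ^ k * (L ^ 64) ^ (4 * h + 1) * L = L ^ (4 * k + 64 * (4 * h + 1) + 1) := by
        have : L ^ 3 * L = L ^ 4 := by ring
        rw [this, ← pow_mul, ← pow_mul, ← pow_add, ← pow_succ]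
      have e2 : (L ^ 6) ^ k = L ^ (6 * k) := by rw [← pow_mul]
      rw [e1, e2]
      apply Nat.pow_le_pow_right (by omega)
      omega
    have h6 : (L ^ 6) ^ k * (b * L) ≤ (L ^ 6) ^ k * F := by
      calc (L ^ 6) ^ k * (b * L) = ((L ^ 6) ^ k * b) * L := by ring
        _ ≤ ((L ^ 3 * L) ^ k * (F * (L ^ 64) ^ (4 * h + 1))) * L :=
            Nat.mul_le_mul_right _ (h3.trans h4)
        _ = ((L ^ 3 * L) ^ k * (L ^ 64) ^ (4 * h + 1) * L) * F := by ring
        _ ≤ (L ^ 6) ^ k * F := Nat.mul_le_mul_right _ h5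
    exact Nat.le_of_mul_le_mul_left h6 (by positivity)
  -- part c
  have hC : c * L ≤ F := by
    have h3 : c ≤ (L ^ 64) ^ (L ^ 6 + L) :=
      (few_sizes N (L ^ 6 + L)).trans (Nat.pow_le_pow_left hNN _)
    have hl : (L ^ 8 - 2 + 1) * (L ^ 8 - 2 + 2) ≤ N := by
      have h8 : 2 ≤ L ^ 8 := by
        calc 2 ≤ L ^ 1 := by rw [pow_one]; omega
          _ ≤ L ^ 8 := Nat.pow_le_pow_right (by omega) (by norm_num)
      calc (L ^ 8 - 2 + 1) * (L ^ 8 - 2 + 2) ≤ L ^ 8 * L ^ 8 :=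
            Nat.mul_le_mul (by omega) (by omega)
        _ = L ^ 16 := by ring
        _ ≤ N := h1
    have h4 : 2 ^ (L ^ 8 - 2) ≤ G := GN_lower hl
    have h5 : G ≤ F * (L ^ 64) ^ (4 * h + 1) :=
      hpsi.trans (Nat.mul_le_mul_left _ (Nat.pow_le_pow_left hNN _))
    have h6 : (L ^ 64) ^ (L ^ 6 + L) * L * (L ^ 64) ^ (4 * h + 1) ≤ 2 ^ (L ^ 8 - 2) := by
      have e1 : (L ^ 64) ^ (L ^ 6 + L) * L * (L ^ 64) ^ (4 * h + 1) =
          L ^ (64 * (L ^ 6 + L) + 1 + 64 * (4 * h + 1)) := by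
        rw [← pow_mul, ← pow_mul, ← pow_succ, ← pow_add]
      have e2 : L ≤ 2 ^ L := Nat.lt_two_pow_self.le
      rw [e1]
      calc L ^ (64 * (L ^ 6 + L) + 1 + 64 * (4 * h + 1))
          ≤ (2 ^ L) ^ (64 * (L ^ 6 + L) + 1 + 64 * (4 * h + 1)) := Nat.pow_le_pow_left e2 _
        _ = 2 ^ (L * (64 * (L ^ 6 + L) + 1 + 64 * (4 * h + 1))) := by rw [← pow_mul]
        _ ≤ 2 ^ (L ^ 8 - 2) := by
            apply Nat.pow_le_pow_right (by norm_num)
            have e3 : 4 * h ≤ L := by omega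
            have e4 : L ≤ L ^ 6 := by
              calc L = L ^ 1 := (pow_one L).symm
                _ ≤ L ^ 6 := Nat.pow_le_pow_right (by omega) (by norm_num)
            have e5 : 64 * (L ^ 6 + L) + 1 + 64 * (4 * h + 1) ≤ 300 * L ^ 6 := by omega
            have e6 : L * (64 * (L ^ 6 + L) + 1 + 64 * (4 * h + 1)) ≤ 300 * L ^ 7 := by
              calc _ ≤ L * (300 * L ^ 6) := Nat.mul_le_mul_left _ e5
                _ = 300 * L ^ 7 := by ring
            have e7 : L ^ 8 = L * L ^ 7 := by ring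
            have e8 : 512 * L ^ 7 ≤ L * L ^ 7 := Nat.mul_le_mul_right _ hL
            have e9 : 1 ≤ L ^ 7 := Nat.one_le_pow _ _ (by omega)
            omega
    have h7 : (c * L) * (L ^ 64) ^ (4 * h + 1) ≤ F * (L ^ 64) ^ (4 * h + 1) := by
      calc (c * L) * (L ^ 64) ^ (4 * h + 1)
          ≤ ((L ^ 64) ^ (L ^ 6 + L) * L) * (L ^ 64) ^ (4 * h + 1) :=
            Nat.mul_le_mul_right _ (Nat.mul_le_mul_right _ h3)
        _ ≤ 2 ^ (L ^ 8 - 2) := h6
        _ ≤ G := h4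
        _ ≤ _ := h5
    exact Nat.le_of_mul_le_mul_right h7 (by positivity)
  have hB' : b * (L - 1) ≤ F := le_trans (Nat.mul_le_mul_left _ (by omega)) hB
  have hC' : c * (L - 1) ≤ F := le_trans (Nat.mul_le_mul_left _ (by omega)) hC
  calc (X1 N).card * (L - 1) ≤ (a + (b + c)) * (L - 1) := Nat.mul_le_mul_right _ hX
    _ = a * (L - 1) + b * (L - 1) + c * (L - 1) := by ring
    _ ≤ 3 * F := by omega

/-- the sixteenth root -/
noncomputable def Lr (n : ℕ) : ℕ := ⌊((2 * n : ℕ) : ℝ) ^ ((1 : ℝ) / 16)⌋₊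

lemma Lr_tendsto : Tendsto Lr atTop atTop := by
  unfold Lr
  apply tendsto_nat_floor_atTop.comp
  apply (tendsto_rpow_atTop (by norm_num : (0 : ℝ) < 1 / 16)).comp
  apply tendsto_natCast_atTop_atTop.comp
  exact tendsto_id.const_mul_atTop' (by norm_num)

lemma Lr_pow_le (n : ℕ) : Lr n ^ 16 ≤ 2 * n := by
  have h1 : (Lr n : ℝ) ≤ ((2 * n : ℕ) : ℝ) ^ ((1 : ℝ) / 16) := Nat.floor_le (by positivity)
  have h2 : (Lr n : ℝ) ^ 16 ≤ (((2 * n : ℕ) : ℝ) ^ ((1 : ℝ) / 16)) ^ 16 :=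
    pow_le_pow_left₀ (by positivity) h1 16
  rw [← Real.rpow_natCast (((2 * n : ℕ) : ℝ) ^ ((1 : ℝ) / 16)) 16, ← Real.rpow_mul (by positivity)]
    at h2
  norm_num at h2
  exact_mod_cast h2

lemma lt_Lr_succ_pow (n : ℕ) : 2 * n < (Lr n + 1) ^ 16 := by
  have h1 : ((2 * n : ℕ) : ℝ) ^ ((1 : ℝ) / 16) < (Lr n : ℝ) + 1 := Nat.lt_floor_add_one _
  have h2 : (((2 * n : ℕ) : ℝ) ^ ((1 : ℝ) / 16)) ^ 16 < ((Lr n : ℝ) + 1) ^ 16 :=
    pow_lt_pow_left₀ h1 (by positivity) (by norm_num)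
  rw [← Real.rpow_natCast (((2 * n : ℕ) : ℝ) ^ ((1 : ℝ) / 16)) 16, ← Real.rpow_mul (by positivity)]
    at h2
  norm_num at h2
  exact_mod_cast h2

lemma eventually_harm : ∀ᶠ L : ℕ in atTop, ∀ N : ℕ, N < (L + 1) ^ 16 →
    ∑ i ∈ Finset.Icc 1 N, (1 : ℝ) / i ≤ (L / 512 : ℕ) := by
  have h1 : ∀ᶠ x : ℝ in atTop, Real.log x ≤ (1 / 16384) * x := by
    have := Real.isLittleO_log_id_atTop.bound (show (0 : ℝ) < 1 / 16384 by norm_num)
    filter_upwards [this, eventually_ge_atTop 1] with x hx hx1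
    simp only [id, Real.norm_eq_abs] at hx
    rw [abs_of_nonneg (Real.log_nonneg hx1), abs_of_nonneg (by linarith)] at hx
    exact hx
  have h2 : ∀ᶠ L : ℕ in atTop, Real.log ((L : ℝ) + 1) ≤ (1 / 16384) * ((L : ℝ) + 1) := by
    have ht : Tendsto (fun L : ℕ => (L : ℝ) + 1) atTop atTop :=
      tendsto_atTop_add_const_right _ _ tendsto_natCast_atTop_atTop
    exact ht.eventually h1
  filter_upwards [h2, eventually_ge_atTop 4096] with L hL hL2
  intro N hN
  have h3 : ∑ i ∈ Finset.Icc 1 N, (1 : ℝ) / i = (harmonic N : ℝ) := by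
    rw [harmonic_eq_sum_Icc]
    push_cast
    simp
  rw [h3]
  have h4 := harmonic_le_one_add_log N
  have h5 : Real.log N ≤ 16 * Real.log ((L : ℝ) + 1) := by
    rcases Nat.eq_zero_or_pos N with h0 | h0
    · rw [h0]
      simp
      apply Real.log_nonneg
      have : (0 : ℝ) ≤ L := by positivity
      linarith
    · have h6 : (N : ℝ) ≤ ((L : ℝ) + 1) ^ 16 := by exact_mod_cast hN.le
      calc Real.log N ≤ Real.log (((L : ℝ) + 1) ^ 16) :=
            Real.log_le_log (by exact_mod_cast h0) h6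
        _ = 16 * Real.log ((L : ℝ) + 1) := by
            rw [Real.log_pow]; norm_num
  have h7 : (L : ℝ) / 512 - 1 ≤ ((L / 512 : ℕ) : ℝ) := by
    have h8 : L < (L / 512 + 1) * 512 := by
      have := Nat.lt_succ_self (L / 512)
      omega
    have h9 : (L : ℝ) < ((L / 512 : ℕ) + 1) * 512 := by exact_mod_cast h8
    linarith
  have h10 : (4096 : ℝ) ≤ L := by exact_mod_cast hL2
  linarith

theorem ratio_tendsto :
    Tendsto (fun n : ℕ => ((X1 (2 * n)).card : ℝ) / (F1 (2 * n)).card) atTop (𝓝 0) := by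
  have hev : ∀ᶠ n : ℕ in atTop, ((X1 (2 * n)).card : ℝ) / (F1 (2 * n)).card ≤
      3 / ((Lr n : ℝ) - 1) := by
    filter_upwards [Lr_tendsto.eventually eventually_harm,
      Lr_tendsto.eventually (eventually_ge_atTop 512)] with n hn1 hn2
    have hb := main_bound hn2 (Lr_pow_le n) (lt_Lr_succ_pow n) (hn1 _ (lt_Lr_succ_pow n))
    have hL : (512 : ℝ) ≤ Lr n := by exact_mod_cast hn2
    have hb' : ((X1 (2 * n)).card : ℝ) * ((Lr n : ℝ) - 1) ≤ 3 * (F1 (2 * n)).card := by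
      have : ((Lr n - 1 : ℕ) : ℝ) = (Lr n : ℝ) - 1 := by
        rw [Nat.cast_sub (by omega)]
        norm_num
      rw [← this]
      exact_mod_cast hb
    rcases Nat.eq_zero_or_pos (F1 (2 * n)).card with h0 | h0
    · rw [h0]
      simp only [Nat.cast_zero, div_zero]
      apply div_nonneg (by norm_num)
      linarith
    · rw [div_le_div_iff₀ (by exact_mod_cast h0) (by linarith)]
      exact hb'
  have hlim : Tendsto (fun n : ℕ => 3 / ((Lr n : ℝ) - 1)) atTop (𝓝 0) := by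
    apply Tendsto.const_div_atTop
    apply tendsto_atTop_add_const_right
    exact tendsto_natCast_atTop_atTop.comp Lr_tendsto
  exact squeeze_zero' (Eventually.of_forall fun n => by positivity) hev hlim

end Pool.Agent.Lib.MP_1c575b_co
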