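import Pool.Agent.Lib.MP_1c575b_co.Seq

set_option autoImplicit false

namespace Pool.Agent.Lib.MP_1c575b_co

open Finset

open Classical in
/-- the partitions of `N`, as multisets -/
noncomputable def Pt (N : ℕ) : Finset (Multiset ℕ) :=
  (Finset.univ : Finset (Nat.Partition N)).image (fun p => p.parts)

lemma mem_Pt {N : ℕ} {s : Multiset ℕ} : s ∈ Pt N ↔ (∀ x ∈ s, 0 < x) ∧ s.sum = N := by
  classical
  unfold Pt
  rw [Finset.mem_image]
  constructor
  · rintro ⟨p, _, rfl⟩
    exact ⟨fun x hx => p.parts_pos hx, p.parts_sum⟩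
  · rintro ⟨h1, h2⟩
    exact ⟨⟨s, fun {i} hi => h1 i hi, h2⟩, Finset.mem_univ _, rfl⟩

open Classical in
/-- graphical partitions of `N` -/
noncomputable def GN (N : ℕ) : Finset (Multiset ℕ) := (Pt N).filter Gr

open Classical in
/-- forcibly connected partitions of `N` -/
noncomputable def F1 (N : ℕ) : Finset (Multiset ℕ) := (Pt N).filter FC

lemma mem_GN {N : ℕ} {s : Multiset ℕ} : s ∈ GN N ↔ (∀ x ∈ s, 0 < x) ∧ s.sum = N ∧ Gr s := by
  classical
  unfold GN
  rw [Finset.mem_filter, mem_Pt, and_assoc]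

lemma mem_F1 {N : ℕ} {s : Multiset ℕ} : s ∈ F1 N ↔ (∀ x ∈ s, 0 < x) ∧ s.sum = N ∧ FC s := by
  classical
  unfold F1
  rw [Finset.mem_filter, mem_Pt, and_assoc]

lemma le_of_mem_part {N : ℕ} {s : Multiset ℕ} (hs : s.sum = N) {x : ℕ} (hx : x ∈ s) : x ≤ N := by
  rw [← hs]
  exact Multiset.le_sum_of_mem hx

lemma card_le_of_part {N : ℕ} {s : Multiset ℕ} (hs : s.sum = N) (hpos : ∀ x ∈ s, 0 < x) :
    Multiset.card s ≤ N := by
  rw [← hs]
  have := Multiset.card_nsmul_le_sum (s := s) (a := 1) (fun x hx => hpos x hx)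
  simpa using this

lemma exists_max_part {s : Multiset ℕ} (hs : s ≠ 0) : ∃ p ∈ s, ∀ x ∈ s, x ≤ p := by
  classical
  obtain ⟨a, ha⟩ := Multiset.exists_mem_of_ne_zero hs
  obtain ⟨p, hp, hmax⟩ := Finset.exists_max_image s.toFinset id ⟨a, by simpa using ha⟩
  exact ⟨p, by simpa using hp, fun x hx => hmax x (by simpa using hx)⟩

/-- the relation behind the map `Φ` -/
def Rel (r : ℕ) (s : Multiset ℕ) (j : ℕ) (μ : Multiset ℕ) : Prop :=
  ∃ p τ t, s = p ::ₘ (Multiset.replicate j r + t) ∧ (∀ x ∈ s, x ≤ p) ∧ r < p ∧ τ ≤ r * j ∧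
    μ = (p + τ) ::ₘ (Multiset.replicate (r * j - τ) 1 + t)

lemma rel_exists {N r j M : ℕ} {s : Multiset ℕ} (hs : s ∈ F1 N) (h1 : 1 ∉ s) (hr : 2 ≤ r)
    (hM : M ≤ s.count r) (hx : ∃ x ∈ s, r < x) (hj : r + 1 ≤ j) (hjM : j ≤ M) :
    ∃ μ ∈ F1 N, Rel r s j μ := by
  classical
  rw [mem_F1] at hs
  obtain ⟨hpos, hsum, hFC⟩ := hs
  obtain ⟨x, hx, hrx⟩ := hx
  have hs0 : s ≠ 0 := by rintro rfl; simp at hx
  obtain ⟨p, hp, hmax⟩ := exists_max_part hs0
  have hrp : r < p := lt_of_lt_of_le hrx (hmax x hx)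
  have hcount : (s.erase p).count r = s.count r :=
    Multiset.count_erase_of_ne (by omega) s
  have hle : Multiset.replicate j r ≤ s.erase p := by
    rw [← Multiset.le_count_iff_replicate_le, hcount]
    omega
  obtain ⟨t, ht⟩ := Multiset.le_iff_exists_add.mp hle
  have hst : s = p ::ₘ (Multiset.replicate j r + t) := by
    rw [← ht]
    exact (Multiset.cons_erase hp).symm
  have htmem : ∀ y ∈ t, y ∈ s := fun y hy => by
    rw [hst]
    exact Multiset.mem_cons_of_mem (Multiset.mem_add.mpr (Or.inr hy))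
  have hsplit : Gr (p ::ₘ (Multiset.replicate (r * j) 1 + t)) := by
    have h := Gr.split_all (p := p) (t := t) (Multiset.replicate j r) (by rw [← hst]; exact hFC.1)
    rw [Multiset.sum_replicate, smul_eq_mul, mul_comm] at h
    exact h
  have hn : ¬ Gr ((p + r * j) ::ₘ t) := by
    apply not_gr_of_FC (by rw [← hst]; exact hFC) hrp.le _ hj
    intro y hy
    exact hmax y (htmem y hy)
  obtain ⟨τ, hτ, hFC'⟩ := exists_tight hsplit (by omega) (fun y hy => hpos y (htmem y hy)) hn
  refine ⟨_, ?_, p, τ, t, hst, hmax, hrp, hτ.le, rfl⟩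
  rw [mem_F1]
  refine ⟨?_, ?_, hFC'⟩
  · intro y hy
    rw [Multiset.mem_cons, Multiset.mem_add] at hy
    rcases hy with rfl | hy | hy
    · omega
    · rw [Multiset.eq_of_mem_replicate hy]; norm_num
    · exact hpos y (htmem y hy)
  · rw [← hsum]
    conv_rhs => rw [hst]
    rw [Multiset.sum_cons, Multiset.sum_cons, Multiset.sum_add, Multiset.sum_add,
      Multiset.sum_replicate, Multiset.sum_replicate, smul_eq_mul, smul_eq_mul, mul_one,
      mul_comm j r]
    omega

lemma rel_unique_aux {r : ℕ} {s s' : Multiset ℕ} {j j' : ℕ} {μ : Multiset ℕ} (hr : 2 ≤ r)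
    (h1 : 1 ∉ s) (h1' : 1 ∉ s') (hpos : ∀ x ∈ s, 0 < x) (hpos' : ∀ x ∈ s', 0 < x)
    (hG : Gr s) (hF' : FC s')
    (hR : Rel r s j μ) (hR' : Rel r s' j' μ) (hmod : j % (r + 1) = j' % (r + 1)) (hle : j ≤ j') :
    s = s' ∧ j = j' := by
  classical
  obtain ⟨p, τ, t, hs, hmax, hrp, hτ, hμ⟩ := hR
  obtain ⟨p', τ', t', hs', hmax', hrp', hτ', hμ'⟩ := hR'
  have ht : ∀ y ∈ t, y ∈ s := fun y hy => by
    rw [hs]
    exact Multiset.mem_cons_of_mem (Multiset.mem_add.mpr (Or.inr hy))
  have ht' : ∀ y ∈ t', y ∈ s' := fun y hy => by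
    rw [hs']
    exact Multiset.mem_cons_of_mem (Multiset.mem_add.mpr (Or.inr hy))
  have heq := hμ.symm.trans hμ'
  have hb : ∀ y ∈ (p + τ) ::ₘ (Multiset.replicate (r * j - τ) 1 + t), y ≤ p + τ := by
    intro y hy
    rw [Multiset.mem_cons, Multiset.mem_add] at hy
    rcases hy with rfl | hy | hy
    · exact le_rfl
    · rw [Multiset.eq_of_mem_replicate hy]; omega
    · have := hmax y (ht y hy); omega
  have hb' : ∀ y ∈ (p' + τ') ::ₘ (Multiset.replicate (r * j' - τ') 1 + t'), y ≤ p' + τ' := by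
    intro y hy
    rw [Multiset.mem_cons, Multiset.mem_add] at hy
    rcases hy with rfl | hy | hy
    · exact le_rfl
    · rw [Multiset.eq_of_mem_replicate hy]; omega
    · have := hmax' y (ht' y hy); omega
  have hpp : p + τ = p' + τ' := by
    apply le_antisymm
    · apply hb'
      rw [← heq]
      exact Multiset.mem_cons_self _ _
    · apply hb
      rw [heq]
      exact Multiset.mem_cons_self _ _
  rw [hpp, Multiset.cons_inj_right] at heq
  have hc1 : t.count 1 = 0 := Multiset.count_eq_zero.mpr (fun h => h1 (ht 1 h))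
  have hc1' : t'.count 1 = 0 := Multiset.count_eq_zero.mpr (fun h => h1' (ht' 1 h))
  have hu : r * j - τ = r * j' - τ' := by
    have := congrArg (Multiset.count 1) heq
    rw [Multiset.count_add, Multiset.count_add, hc1, hc1', Multiset.count_replicate_self,
      Multiset.count_replicate_self] at this
    simpa using this
  rw [hu, add_right_inj] at heq
  subst heq
  by_cases hjj : j = j'
  · subst hjj
    have : τ = τ' := by omega
    have : p = p' := by omega
    subst this
    exact ⟨hs.trans hs'.symm, rfl⟩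
  · exfalso
    have hlt : j < j' := lt_of_le_of_ne hle hjj
    obtain ⟨d, rfl⟩ := Nat.exists_eq_add_of_le hle
    have hd : r + 1 ∣ d := by
      have h2 : (j + d) % (r + 1) = (j + 0) % (r + 1) := by rw [add_zero]; exact hmod.symm
      have h3 : d ≡ 0 [MOD (r + 1)] := Nat.ModEq.add_left_cancel' j h2
      exact (Nat.modEq_zero_iff_dvd).mp h3
    have hd1 : r + 1 ≤ d := Nat.le_of_dvd (by omega) hd
    have hs2 : s' = p' ::ₘ (Multiset.replicate d r + (Multiset.replicate j r + t)) := by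
      rw [hs', Multiset.replicate_add, add_comm (Multiset.replicate j r), add_assoc]
    have hn := not_gr_of_FC (p := p') (r := r) (j := d) (t := Multiset.replicate j r + t)
      (by rw [← hs2]; exact hF') hrp'.le (by
        intro y hy
        rw [Multiset.mem_add] at hy
        rcases hy with hy | hy
        · rw [Multiset.eq_of_mem_replicate hy]; exact hrp'.le
        · exact hmax' y (ht' y hy)) hd1
    apply hn
    have hmul : r * (j + d) = r * j + r * d := by ring
    have : p' + r * d = p := by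
      rw [hmul] at hu hτ'
      omega
    rw [this, ← hs]
    exact hG

open Classical in
lemma phi_bound (N M r : ℕ) (hr : 2 ≤ r) :
    (M - r) * ((F1 N).filter (fun s => 1 ∉ s ∧ M ≤ s.count r ∧ ∃ x ∈ s, r < x)).card
      ≤ (r + 1) * (F1 N).card := by
  set A := (F1 N).filter (fun s => 1 ∉ s ∧ M ≤ s.count r ∧ ∃ x ∈ s, r < x) with hA
  have hex : ∀ q : Multiset ℕ × ℕ, q ∈ A ×ˢ Finset.Icc (r + 1) M → ∃ μ ∈ F1 N, Rel r q.1 q.2 μ := by
    rintro ⟨s, j⟩ hq
    rw [Finset.mem_product, hA, Finset.mem_filter, Finset.mem_Icc] at hq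
    obtain ⟨⟨hs, h1, hM, hx⟩, hj1, hj2⟩ := hq
    exact rel_exists hs h1 hr hM hx hj1 hj2
  choose! f hf using hex
  have hcard : (A ×ˢ Finset.Icc (r + 1) M).card ≤ (F1 N ×ˢ Finset.range (r + 1)).card := by
    apply Finset.card_le_card_of_injOn (fun q => (f q, q.2 % (r + 1)))
    · intro q hq
      have := hf q hq
      simp only [Finset.coe_product, Set.mem_prod, Finset.mem_coe, Finset.mem_range]
      exact ⟨this.1, Nat.mod_lt _ (by omega)⟩
    · rintro ⟨s, j⟩ hq ⟨s', j'⟩ hq' heq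
      rw [Finset.mem_coe] at hq hq'
      have hR := (hf _ hq).2
      have hR' := (hf _ hq').2
      simp only [Prod.mk.injEq] at heq hR hR'
      obtain ⟨he1, he2⟩ := heq
      rw [← he1] at hR'
      rw [Finset.mem_product, hA, Finset.mem_filter, mem_F1] at hq hq'
      obtain ⟨⟨⟨hpos, _, hF⟩, h1, _⟩, _⟩ := hq
      obtain ⟨⟨⟨hpos', _, hF'⟩, h1', _⟩, _⟩ := hq'
      rcases le_total j j' with hle | hle
      · obtain ⟨h3, h4⟩ := rel_unique_aux hr h1 h1' hpos hpos' hF.1 hF' hR hR' he2 hle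
        simp only at h3 h4
        rw [h3, h4]
      · obtain ⟨h3, h4⟩ := rel_unique_aux hr h1' h1 hpos' hpos hF'.1 hF hR' hR he2.symm hle
        simp only at h3 h4
        rw [h3, h4]
  rw [Finset.card_product, Finset.card_product, Nat.card_Icc, Finset.card_range] at hcard
  have : M + 1 - (r + 1) = M - r := by omega
  rw [this] at hcard
  rw [mul_comm, mul_comm (r + 1)]
  exact hcard

end Pool.Agent.Lib.MP_1c575b_co
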