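import Mathlib

set_option autoImplicit false

namespace Pool.Agent.Lib.MP_1c575b_co

open Classical in
/-- `G` is a realization of the partition `p` of `N`: the multiset of all its vertex degrees is
exactly the multiset of parts of `p`. -/
def IsRealization {N m : ℕ} (p : N.Partition) (G : SimpleGraph (Fin m)) : Prop :=
  (Finset.univ : Finset (Fin m)).val.map (fun v => G.degree v) = p.parts

/-- `p` is graphical: it has a realization by a finite simple graph. -/
def IsGraphical {N : ℕ} (p : N.Partition) : Prop :=
  ∃ (m : ℕ) (G : SimpleGraph (Fin m)), IsRealization p G

/-- `G` is `k`-connected: it has more than `k` vertices, and deleting any set of fewer than `k`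
vertices leaves a connected graph. -/
def IsKConnected {V : Type} [Fintype V] (k : ℕ) (G : SimpleGraph V) : Prop :=
  k < Fintype.card V ∧ ∀ S : Finset V, S.card < k → (G.induce {v | v ∉ S}).Connected

/-- `p` is forcibly `k`-connected: it is graphical and every realization of it is `k`-connected. -/
def IsForciblyKConnected (k : ℕ) {N : ℕ} (p : N.Partition) : Prop :=
  IsGraphical p ∧ ∀ (m : ℕ) (G : SimpleGraph (Fin m)), IsRealization p G → IsKConnected k G

/-- the number of graphical partitions of `N` -/
noncomputable def g (N : ℕ) : ℕ := Nat.card {p : N.Partition // IsGraphical p}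

/-- the number of forcibly `k`-connected graphical partitions of `N` -/
noncomputable def gf (k N : ℕ) : ℕ := Nat.card {p : N.Partition // IsForciblyKConnected k p}

end Pool.Agent.Lib.MP_1c575b_co
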