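import Mathlib

set_option autoImplicit false

namespace Pool.Agent.Lib.MP_1c575b_co

open Finset

section basic

variable {V : Type} [Fintype V]

open Classical in
/-- degree as a sum of indicators -/
noncomputable def dg (G : SimpleGraph V) (v : V) : ℕ := ∑ u, if G.Adj v u then 1 else 0

open Classical in
lemma dg_eq_degree (G : SimpleGraph V) (v : V) : dg G v = G.degree v := by
  unfold dg
  rw [Finset.sum_boole]
  simp [SimpleGraph.card_neighborFinset_eq_degree, ← SimpleGraph.neighborFinset_eq_filter]

lemma exists_adj_of_dg_pos {G : SimpleGraph V} {v : V} (h : 0 < dg G v) : ∃ w, G.Adj v w := by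
  classical
  by_contra hc
  push Not at hc
  have : dg G v = 0 := by
    unfold dg
    apply Finset.sum_eq_zero
    intro u _
    simp [hc u]
  omega

lemma dg_pos_of_adj {G : SimpleGraph V} {v w : V} (h : G.Adj v w) : 0 < dg G v := by
  classical
  unfold dg
  apply Finset.sum_pos'
  · intro i _; positivity
  · exact ⟨w, Finset.mem_univ _, by simp [h]⟩

/-- add the edge `ab` -/
def addE (G : SimpleGraph V) (a b : V) : SimpleGraph V where
  Adj u v := G.Adj u v ∨ (u ≠ v ∧ ((u = a ∧ v = b) ∨ (u = b ∧ v = a)))
  symm := ⟨by
    rintro u v (h | ⟨h1, h2⟩)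
    · exact Or.inl h.symm
    · exact Or.inr ⟨h1.symm, by tauto⟩⟩
  loopless := ⟨by
    rintro u (h | ⟨h1, _⟩)
    · exact G.loopless.irrefl u h
    · exact h1 rfl⟩

/-- delete the edge `ab` -/
def delE (G : SimpleGraph V) (a b : V) : SimpleGraph V where
  Adj u v := G.Adj u v ∧ ¬ ((u = a ∧ v = b) ∨ (u = b ∧ v = a))
  symm := ⟨by
    rintro u v ⟨h1, h2⟩
    exact ⟨h1.symm, by tauto⟩⟩
  loopless := ⟨by
    rintro u ⟨h1, _⟩
    exact G.loopless.irrefl u h1⟩

open Classical in
lemma dg_addE {G : SimpleGraph V} {a b : V} (hab : a ≠ b) (h : ¬ G.Adj a b) (v : V) :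
    dg (addE G a b) v = dg G v + (if v = a then 1 else 0) + (if v = b then 1 else 0) := by
  have hb : ¬ G.Adj b a := fun h' => h h'.symm
  have key : ∀ u, (if (addE G a b).Adj v u then 1 else 0 : ℕ) =
      (if G.Adj v u then 1 else 0) + (if v = a then (if u = b then 1 else 0) else 0)
        + (if v = b then (if u = a then 1 else 0) else 0) := by
    intro u
    unfold addE
    by_cases hva : v = a
    · subst hva
      by_cases hub : u = b
      · subst hub; simp [h, hab]
      · simp [hub, hab]
    · by_cases hvb : v = b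
      · subst hvb
        by_cases hua : u = a
        · subst hua; simp [hb, hab, Ne.symm hab]
        · simp [hua, Ne.symm hab]
      · simp [hva, hvb]
  unfold dg
  rw [Finset.sum_congr rfl (fun u _ => key u), Finset.sum_add_distrib, Finset.sum_add_distrib]
  congr 1
  · congr 1
    split_ifs <;> simp
  · split_ifs <;> simp

open Classical in
lemma dg_delE {G : SimpleGraph V} {a b : V} (h : G.Adj a b) (v : V) :
    dg (delE G a b) v + (if v = a then 1 else 0) + (if v = b then 1 else 0) = dg G v := by
  have hab : a ≠ b := h.ne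
  have hb : G.Adj b a := h.symm
  have key : ∀ u, (if (delE G a b).Adj v u then 1 else 0 : ℕ)
      + (if v = a then (if u = b then 1 else 0) else 0)
        + (if v = b then (if u = a then 1 else 0) else 0) = (if G.Adj v u then 1 else 0) := by
    intro u
    unfold delE
    by_cases hva : v = a
    · subst hva
      by_cases hub : u = b
      · subst hub; simp [h, hab]
      · simp [hub, hab]
    · by_cases hvb : v = b
      · subst hvb
        by_cases hua : u = a
        · subst hua; simp [hb, hab, Ne.symm hab]
        · simp [hua, Ne.symm hab]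
      · simp [hva, hvb]
  unfold dg
  rw [← Finset.sum_congr rfl (fun u _ => key u), Finset.sum_add_distrib, Finset.sum_add_distrib]
  congr 1
  · congr 1
    split_ifs <;> simp
  · split_ifs <;> simp

/-- the raising lemma: in a disconnected graph without isolated vertices, a degree one vertex `v` can be
removed while the degree of `x` goes up by one. -/
lemma raise_aux {G : SimpleGraph V} {x v : V} (hxv : x ≠ v) (hv : dg G v = 1)
    (hpos : ∀ u, 0 < dg G u) (hnc : ¬ G.Preconnected) :
    ∃ G' : SimpleGraph V, dg G' x = dg G x + 1 ∧ dg G' v = 0 ∧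
      ∀ u, u ≠ x → u ≠ v → dg G' u = dg G u := by
  classical
  obtain ⟨w, hw⟩ := exists_adj_of_dg_pos (hpos v)
  have hvw : v ≠ w := hw.ne
  by_cases hc : w ≠ x ∧ ¬ G.Adj x w
  · obtain ⟨hwx, hnadj⟩ := hc
    have hn1 : ¬ (delE G v w).Adj x w := fun h => hnadj h.1
    refine ⟨addE (delE G v w) x w, ?_, ?_, ?_⟩
    · have h1 := dg_addE (Ne.symm hwx) hn1 x
      have h2 := dg_delE hw x
      simp [hxv, Ne.symm hwx] at h1 h2
      omega
    · have h1 := dg_addE (Ne.symm hwx) hn1 v
      have h2 := dg_delE hw v
      simp [Ne.symm hxv, hvw] at h1 h2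
      omega
    · intro u hux huv
      have h1 := dg_addE (Ne.symm hwx) hn1 u
      have h2 := dg_delE hw u
      by_cases huw : u = w
      · subst huw
        simp [hux, huv] at h1 h2
        omega
      · simp [hux, huv, huw] at h1 h2
        omega
  · -- now `w = x` or `w` adjacent to `x`
    have hxw : G.Reachable x w := by
      by_cases hwx : w = x
      · rw [hwx]
      · have : G.Adj x w := by
          by_contra h
          exact hc ⟨hwx, h⟩
        exact this.reachable
    have hxv' : G.Reachable x v := hxw.trans hw.symm.reachable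
    obtain ⟨a, ha⟩ : ∃ a, ¬ G.Reachable x a := by
      by_contra h
      push Not at h
      exact hnc (fun p q => (h p).symm.trans (h q))
    obtain ⟨b, hab⟩ := exists_adj_of_dg_pos (hpos a)
    have hb : ¬ G.Reachable x b := fun h => ha (h.trans hab.symm.reachable)
    have hax : a ≠ x := by rintro rfl; exact ha (SimpleGraph.Reachable.refl _)
    have hbx : b ≠ x := by rintro rfl; exact hb (SimpleGraph.Reachable.refl _)
    have hav : a ≠ v := by rintro rfl; exact ha hxv'
    have hbv : b ≠ v := by rintro rfl; exact hb hxv'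
    have haw : a ≠ w := by rintro rfl; exact ha hxw
    have hbw : b ≠ w := by rintro rfl; exact hb hxw
    have hab' : a ≠ b := hab.ne
    have hwb : ¬ G.Adj w b := fun h => hb (hxw.trans h.reachable)
    have hxa : ¬ G.Adj x a := fun h => ha h.reachable
    have e1 : (delE G v w).Adj a b := by
      refine ⟨hab, ?_⟩
      rintro (⟨h, _⟩ | ⟨h, _⟩)
      · exact hav h
      · exact haw h
    have n2 : ¬ (delE (delE G v w) a b).Adj w b := fun h => hwb h.1.1
    have n3 : ¬ (addE (delE (delE G v w) a b) w b).Adj x a := by
      rintro (h | ⟨_, ⟨h1, h2⟩ | ⟨h1, h2⟩⟩)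
      · exact hxa h.1.1
      · exact hab' h2
      · exact hbx h1.symm
    refine ⟨addE (addE (delE (delE G v w) a b) w b) x a, ?_, ?_, ?_⟩
    · have h1 := dg_addE (Ne.symm hax) n3 x
      have h2 := dg_addE (Ne.symm hbw) n2 x
      have h3 := dg_delE e1 x
      have h4 := dg_delE hw x
      simp only [hxv, Ne.symm hax, Ne.symm hbx, if_true, if_false] at h1 h2 h3 h4
      split_ifs at h2 h4 <;> omega
    · have h1 := dg_addE (Ne.symm hax) n3 v
      have h2 := dg_addE (Ne.symm hbw) n2 v
      have h3 := dg_delE e1 v
      have h4 := dg_delE hw v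
      simp only [Ne.symm hxv, Ne.symm hav, Ne.symm hbv, hvw, if_true, if_false] at h1 h2 h3 h4
      omega
    · intro u hux huv
      have h1 := dg_addE (Ne.symm hax) n3 u
      have h2 := dg_addE (Ne.symm hbw) n2 u
      have h3 := dg_delE e1 u
      have h4 := dg_delE hw u
      simp only [hux, huv, if_false] at h1 h2 h3 h4
      by_cases hua : u = a
      · subst hua
        simp only [haw, hab', if_true, if_false] at h1 h2 h3 h4
        omega
      · by_cases hub : u = b
        · subst hub
          simp only [hbw, hua, if_true, if_false] at h1 h2 h3 h4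
          omega
        · by_cases huw : u = w
          · subst huw
            simp only [hua, hub, if_true, if_false] at h1 h2 h3 h4
            omega
          · simp only [hua, hub, huw, if_false] at h1 h2 h3 h4
            omega

/-- if `x` has the unique largest degree (at least 2), this degree can be lowered by two. -/
lemma lower_aux {G : SimpleGraph V} {x : V} (hx : ∀ u, u ≠ x → dg G u < dg G x) (h2 : 2 ≤ dg G x) :
    ∃ G' : SimpleGraph V, dg G' x + 2 = dg G x ∧ ∀ u, u ≠ x → dg G' u = dg G u := by
  classical
  have hex : ∃ y z, y ≠ z ∧ G.Adj x y ∧ G.Adj x z ∧ ¬ G.Adj y z := by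
    by_contra hc
    push Not at hc
    obtain ⟨y, hy⟩ := exists_adj_of_dg_pos (show 0 < dg G x by omega)
    have hlt := hx y hy.ne.symm
    rw [dg_eq_degree, dg_eq_degree] at hlt
    have hsub : (insert x ((G.neighborFinset x).erase y)) ⊆ G.neighborFinset y := by
      intro z hz
      rw [Finset.mem_insert, Finset.mem_erase] at hz
      rw [SimpleGraph.mem_neighborFinset]
      rcases hz with rfl | ⟨hz1, hz2⟩
      · exact hy.symm
      · rw [SimpleGraph.mem_neighborFinset] at hz2
        exact hc y z (Ne.symm hz1) hy hz2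
    have hcard := Finset.card_le_card hsub
    rw [Finset.card_insert_of_notMem (by simp), Finset.card_erase_of_mem (by simpa using hy),
      SimpleGraph.card_neighborFinset_eq_degree, SimpleGraph.card_neighborFinset_eq_degree] at hcard
    rw [dg_eq_degree] at h2
    omega
  obtain ⟨y, z, hyz, hxy, hxz, hn⟩ := hex
  have hxy' := hxy.ne
  have hxz' := hxz.ne
  have e1 : (delE G x y).Adj x z := by
    refine ⟨hxz, ?_⟩
    rintro (⟨_, h⟩ | ⟨h, _⟩)
    · exact hyz h.symm
    · exact hxy' h
  have n2 : ¬ (delE (delE G x y) x z).Adj y z := fun h => hn h.1.1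
  refine ⟨addE (delE (delE G x y) x z) y z, ?_, ?_⟩
  · have h1 := dg_addE hyz n2 x
    have h2 := dg_delE e1 x
    have h3 := dg_delE hxy x
    simp only [hxy', hxz', if_true, if_false] at h1 h2 h3
    omega
  · intro u hu
    have h1 := dg_addE hyz n2 u
    have h2 := dg_delE e1 u
    have h3 := dg_delE hxy u
    simp only [hu, if_false] at h1 h2 h3
    split_ifs at h1 h2 h3 <;> omega

/-- splitting a vertex -/
def splitG (G : SimpleGraph V) (x : V) (B : Finset V) : SimpleGraph (Option V) where
  Adj u v := match u, v with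
    | none, none => False
    | none, some v => v ∈ B
    | some u, none => u ∈ B
    | some u, some v => G.Adj u v ∧ ¬ (u = x ∧ v ∈ B) ∧ ¬ (v = x ∧ u ∈ B)
  symm := ⟨by
    rintro (_ | u) (_ | v) h
    · exact h
    · exact h
    · exact h
    · exact ⟨h.1.symm, h.2.2, h.2.1⟩⟩
  loopless := ⟨by
    rintro (_ | u) h
    · exact h
    · exact G.loopless.irrefl u h.1⟩

lemma split_aux {G : SimpleGraph V} {x : V} {b : ℕ} (hb : b ≤ dg G x) :
    ∃ G' : SimpleGraph (Option V), dg G' none = b ∧ dg G' (some x) + b = dg G x ∧
      ∀ u, u ≠ x → dg G' (some u) = dg G u := by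
  classical
  rw [dg_eq_degree] at hb
  obtain ⟨B, hBsub, hBcard⟩ := Finset.exists_subset_card_eq
    (s := G.neighborFinset x) (n := b) (by simpa using hb)
  have hBadj : ∀ v ∈ B, G.Adj x v := fun v hv => by
    simpa using hBsub hv
  have hxB : x ∉ B := fun h => G.loopless.irrefl x (hBadj x h)
  refine ⟨splitG G x B, ?_, ?_, ?_⟩
  · unfold dg
    rw [Fintype.sum_option]
    simp [splitG, hBcard]
  · unfold dg
    rw [Fintype.sum_option]
    have h0 : (if (splitG G x B).Adj (some x) none then 1 else 0 : ℕ) = 0 := by
      simp [splitG, hxB]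
    rw [h0, zero_add]
    have h1 : b = ∑ u : V, if u ∈ B then 1 else 0 := by
      simp [hBcard]
    conv_lhs => rw [h1]
    rw [← Finset.sum_add_distrib]
    apply Finset.sum_congr rfl
    intro u _
    by_cases hu : u ∈ B
    · have := hBadj u hu
      simp [splitG, hu, this]
    · by_cases hadj : G.Adj x u
      · simp [splitG, hu, hadj, hxB]
      · simp [splitG, hu, hadj]
  · intro u hux
    unfold dg
    rw [Fintype.sum_option]
    by_cases hu : u ∈ B
    · have hadj := (hBadj u hu).symm
      have h0 : (if (splitG G x B).Adj (some u) none then 1 else 0 : ℕ) = ∑ v : V, if v = x then 1 else 0 := by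
        simp [splitG, hu]
      rw [h0, ← Finset.sum_add_distrib]
      apply Finset.sum_congr rfl
      intro v _
      by_cases hv : v = x
      · subst hv
        simp [splitG, hu, hadj]
      · simp [splitG, hux, hv]
    · have h0 : (if (splitG G x B).Adj (some u) none then 1 else 0 : ℕ) = 0 := by
        simp [splitG, hu]
      rw [h0, zero_add]
      apply Finset.sum_congr rfl
      intro v _
      simp [splitG, hux, hu]

end basic

section union

variable {V W : Type} [Fintype V] [Fintype W]

lemma dg_sum_inl (G : SimpleGraph V) (H : SimpleGraph W) (v : V) :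
    dg (G.sum H) (Sum.inl v) = dg G v := by
  classical
  unfold dg
  rw [Fintype.sum_sum_type]
  simp

lemma dg_sum_inr (G : SimpleGraph V) (H : SimpleGraph W) (w : W) :
    dg (G.sum H) (Sum.inr w) = dg H w := by
  classical
  unfold dg
  rw [Fintype.sum_sum_type]
  simp

lemma not_reachable_sum (G : SimpleGraph V) (H : SimpleGraph W) (v : V) (w : W) :
    ¬ (G.sum H).Reachable (Sum.inl v) (Sum.inr w) := by
  have key : ∀ (a b : V ⊕ W), (G.sum H).Walk a b → (∃ v, a = Sum.inl v) → ∃ v, b = Sum.inl v := by
    intro a b p
    induction p with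
    | nil => exact id
    | cons h p ih =>
      rintro ⟨v, rfl⟩
      apply ih
      rename_i b' c'
      rcases b' with b' | b'
      · exact ⟨b', rfl⟩
      · simp at h
  rintro ⟨p⟩
  obtain ⟨v', hv'⟩ := key _ _ p ⟨v, rfl⟩
  cases hv'

end union

end Pool.Agent.Lib.MP_1c575b_co
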