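import Pool.Agent.Lib.MP_1c575b_co.Asym
import Pool.Agent.Lib.MP_1c575b_co.Defs

set_option autoImplicit false

namespace Pool.Agent.Lib.MP_1c575b_co

open Finset Filter Topology

lemma isRealization_iff {N m : ℕ} (p : N.Partition) (G : SimpleGraph (Fin m)) :
    IsRealization p G ↔ dms G = p.parts := by
  classical
  unfold IsRealization dms
  have : (fun v => dg G v) = (fun v => G.degree v) := by
    funext v
    rw [dg_eq_degree]
  rw [show dg G = (fun v => dg G v) from rfl, this]

/-- transport to `Fin m` -/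
lemma exists_fin {V : Type} [Fintype V] (G : SimpleGraph V) :
    ∃ (m : ℕ) (H : SimpleGraph (Fin m)), dms H = dms G ∧ (H.Preconnected → G.Preconnected) := by
  classical
  let e := Fintype.equivFin V
  refine ⟨Fintype.card V, G.comap e.symm, ?_, ?_⟩
  · unfold dms
    have h1 : ∀ u, dg (G.comap e.symm) u = dg G (e.symm u) := by
      intro u
      unfold dg
      exact Equiv.sum_comp e.symm (fun v => if G.Adj (e.symm u) v then 1 else 0)
    have h2 : (Finset.univ : Finset V).val =
        (Finset.univ : Finset (Fin (Fintype.card V))).val.map e.symm := by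
      have : (Finset.univ : Finset V) = Finset.univ.map e.symm.toEmbedding := by
        ext; simp
      conv_lhs => rw [this]
      rw [Finset.map_val]
      rfl
    rw [h2, Multiset.map_map]
    apply Multiset.map_congr rfl
    intro u _
    exact h1 u
  · intro hH a b
    have h3 := hH (e a) (e b)
    let f : (G.comap e.symm) →g G := ⟨e.symm, fun {a b} h => h⟩
    have h4 := h3.map f
    have ha : f (e a) = a := e.symm_apply_apply a
    have hb : f (e b) = b := e.symm_apply_apply b
    rw [ha, hb] at h4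
    exact h4

lemma isGraphical_iff {N : ℕ} (p : N.Partition) : IsGraphical p ↔ Gr p.parts := by
  constructor
  · rintro ⟨m, G, hG⟩
    exact ⟨Fin m, inferInstance, G, (isRealization_iff p G).mp hG⟩
  · rintro ⟨V, _, G, hG⟩
    obtain ⟨m, H, hH, _⟩ := exists_fin G
    exact ⟨m, H, (isRealization_iff p H).mpr (hH.trans hG)⟩

lemma preconnected_of_kconn {m k : ℕ} {G : SimpleGraph (Fin m)} (hk : 1 ≤ k)
    (h : IsKConnected k G) : G.Preconnected := by
  obtain ⟨_, h2⟩ := h
  have h3 := h2 ∅ (by rw [Finset.card_empty]; omega)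
  intro a b
  have h4 := h3.preconnected ⟨a, by simp⟩ ⟨b, by simp⟩
  exact h4.map (SimpleGraph.Embedding.induce _).toHom

lemma FC_of_forcibly {N k : ℕ} (hk : 1 ≤ k) {p : N.Partition} (h : IsForciblyKConnected k p) :
    FC p.parts := by
  refine ⟨(isGraphical_iff p).mp h.1, ?_⟩
  intro V _ G hG
  obtain ⟨m, H, hH, hc⟩ := exists_fin G
  exact hc (preconnected_of_kconn hk (h.2 m H ((isRealization_iff p H).mpr (hH.trans hG))))

lemma forcibly_one_of_FC {N : ℕ} (hN : 1 ≤ N) {p : N.Partition} (h : FC p.parts) :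
    IsForciblyKConnected 1 p := by
  classical
  refine ⟨(isGraphical_iff p).mpr h.1, ?_⟩
  intro m G hG
  rw [isRealization_iff] at hG
  have hpre := h.2 _ G hG
  have hne : p.parts ≠ 0 := by
    intro h0
    have := p.parts_sum
    rw [h0] at this
    simp at this
    omega
  obtain ⟨d, hd⟩ := Multiset.exists_mem_of_ne_zero hne
  have hdpos := p.parts_pos hd
  rw [← hG] at hd
  unfold dms at hd
  rw [Multiset.mem_map] at hd
  obtain ⟨v, _, hv⟩ := hd
  obtain ⟨w, hw⟩ := exists_adj_of_dg_pos (show 0 < dg G v by omega)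
  refine ⟨?_, ?_⟩
  · rw [Fintype.one_lt_card_iff]
    exact ⟨v, w, hw.ne⟩
  · intro S hS
    have hS0 : S = ∅ := by
      rw [← Finset.card_eq_zero]
      omega
    subst hS0
    rw [SimpleGraph.connected_iff]
    refine ⟨?_, ⟨⟨v, by simp⟩⟩⟩
    rintro ⟨a, ha⟩ ⟨b, hb⟩
    have hab := hpre a b
    let f : G →g G.induce {v | v ∉ (∅ : Finset (Fin m))} :=
      ⟨fun v => ⟨v, by simp⟩, fun {a b} h => h⟩
    exact hab.map f

lemma no_one_of_forcibly_two {N : ℕ} {p : N.Partition} (h : IsForciblyKConnected 2 p) :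
    1 ∉ p.parts := by
  classical
  intro h1
  obtain ⟨m, G, hG⟩ := h.1
  have hK := h.2 m G hG
  rw [isRealization_iff] at hG
  rw [← hG] at h1
  unfold dms at h1
  rw [Multiset.mem_map] at h1
  obtain ⟨v, _, hv⟩ := h1
  obtain ⟨w, hw⟩ := exists_adj_of_dg_pos (show 0 < dg G v by omega)
  obtain ⟨hc, hK2⟩ := hK
  have hcon := hK2 {w} (by simp)
  -- `v` is isolated after deleting `w`
  have hx : ∃ x : Fin m, x ≠ v ∧ x ≠ w := by
    by_contra hcon'
    push Not at hcon'
    have hsub : (Finset.univ : Finset (Fin m)) ⊆ {v, w} := by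
      intro x _
      by_cases hxv : x = v
      · simp [hxv]
      · simp [hcon' x hxv]
    have := Finset.card_le_card hsub
    have h2 := Finset.card_le_two (a := v) (b := w)
    rw [Finset.card_univ] at this
    omega
  obtain ⟨x, hxv, hxw⟩ := hx
  have hreach := hcon.preconnected ⟨v, by simpa using hw.ne⟩ ⟨x, by simpa using hxw⟩
  obtain ⟨q⟩ := hreach
  cases q with
  | nil => exact hxv rfl
  | @cons _ y _ hadj _ =>
    have hadj' : G.Adj v y.1 := hadj
    have hyw : y.1 ≠ w := by simpa using y.2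
    -- degree of `v` at least two
    have h3 : 2 ≤ dg G v := by
      rw [dg_eq_degree, ← SimpleGraph.card_neighborFinset_eq_degree]
      have hsub : ({y.1, w} : Finset (Fin m)) ⊆ G.neighborFinset v := by
        intro z hz
        rw [Finset.mem_insert, Finset.mem_singleton] at hz
        rw [SimpleGraph.mem_neighborFinset]
        rcases hz with rfl | rfl
        · exact hadj'
        · exact hw
      have := Finset.card_le_card hsub
      rwa [Finset.card_pair hyw] at this
    omega

lemma card_parts {N : ℕ} (P : N.Partition → Prop) (F : Finset (Multiset ℕ))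
    (h : ∀ s, s ∈ F ↔ ∃ p : N.Partition, P p ∧ p.parts = s) :
    Nat.card {p : N.Partition // P p} = F.card := by
  classical
  rw [Nat.card_eq_fintype_card, Fintype.card_subtype]
  have hinj : Function.Injective (fun p : N.Partition => p.parts) := by
    intro p q hpq
    exact Nat.Partition.ext hpq
  rw [← Finset.card_image_of_injective _ hinj]
  congr 1
  ext s
  rw [h s, Finset.mem_image]
  simp

lemma exists_partition {N : ℕ} {s : Multiset ℕ} (h1 : ∀ x ∈ s, 0 < x) (h2 : s.sum = N) :
    ∃ p : N.Partition, p.parts = s :=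
  ⟨⟨s, fun {i} hi => h1 i hi, h2⟩, rfl⟩

lemma gf_one {N : ℕ} (hN : 1 ≤ N) : gf 1 N = (F1 N).card := by
  unfold gf
  apply card_parts
  intro s
  rw [mem_F1]
  constructor
  · rintro ⟨h1, h2, h3⟩
    obtain ⟨p, rfl⟩ := exists_partition h1 h2
    exact ⟨p, forcibly_one_of_FC hN h3, rfl⟩
  · rintro ⟨p, hp, rfl⟩
    exact ⟨fun x hx => p.parts_pos hx, p.parts_sum, FC_of_forcibly le_rfl hp⟩

lemma g_eq (N : ℕ) : g N = (GN N).card := by
  unfold g
  apply card_parts
  intro s
  rw [mem_GN]
  constructor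
  · rintro ⟨h1, h2, h3⟩
    obtain ⟨p, rfl⟩ := exists_partition h1 h2
    exact ⟨p, (isGraphical_iff p).mpr h3, rfl⟩
  · rintro ⟨p, hp, rfl⟩
    exact ⟨fun x hx => p.parts_pos hx, p.parts_sum, (isGraphical_iff p).mp hp⟩

lemma gf_two_le (N : ℕ) : gf 2 N ≤ (X1 N).card := by
  classical
  unfold gf
  rw [Nat.card_eq_fintype_card, Fintype.card_subtype]
  apply Finset.card_le_card_of_injOn (fun p : N.Partition => p.parts)
  · intro p hp
    rw [Finset.mem_coe, Finset.mem_filter] at hp
    rw [Finset.mem_coe]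
    unfold X1
    rw [Finset.mem_filter, mem_F1]
    exact ⟨⟨fun x hx => p.parts_pos hx, p.parts_sum, FC_of_forcibly (by norm_num) hp.2⟩,
      no_one_of_forcibly_two hp.2⟩
  · intro p _ q _ hpq
    exact Nat.Partition.ext hpq

lemma F1_pos {n : ℕ} (hn : 1 ≤ n) : 0 < (F1 (2 * n)).card := by
  rw [Finset.card_pos]
  refine ⟨n ::ₘ Multiset.replicate n 1, ?_⟩
  rw [mem_F1]
  refine ⟨?_, ?_, ?_⟩
  · intro x hx
    rw [Multiset.mem_cons] at hx
    rcases hx with rfl | hx
    · omega
    · rw [Multiset.eq_of_mem_replicate hx]; norm_num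
  · rw [Multiset.sum_cons, Multiset.sum_replicate]
    simp
    ring
  · obtain ⟨k, rfl⟩ := Nat.exists_eq_add_of_le hn
    rw [add_comm 1 k, Multiset.replicate_succ]
    have h := Gr.star (k + 1)
    rw [Multiset.replicate_succ] at h
    apply FC_of_not_raise h (by omega)
    · intro y hy
      rw [Multiset.eq_of_mem_replicate hy]; norm_num
    · intro hc
      have := hc.card_gt
      simp at this

lemma F1_le_GN (N : ℕ) : (F1 N).card ≤ (GN N).card := by
  apply Finset.card_le_card
  intro s hs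
  rw [mem_F1] at hs
  rw [mem_GN]
  exact ⟨hs.1, hs.2.1, hs.2.2.1⟩

theorem main :
    (∀ n : ℕ, 1 ≤ n → 0 < gf 1 (2 * n)) ∧
    Tendsto (fun n : ℕ => (gf 2 (2 * n) : ℝ) / (gf 1 (2 * n) : ℝ)) atTop (𝓝 0) ∧
    Tendsto (fun n : ℕ => (gf 2 (2 * n) : ℝ) / (g (2 * n) : ℝ)) atTop (𝓝 0) := by
  have hpos : ∀ n : ℕ, 1 ≤ n → 0 < gf 1 (2 * n) := by
    intro n hn
    rw [gf_one (by omega)]
    exact F1_pos hn
  have hle : ∀ n : ℕ, 1 ≤ n → (gf 2 (2 * n) : ℝ) / (gf 1 (2 * n) : ℝ) ≤
      ((X1 (2 * n)).card : ℝ) / (F1 (2 * n)).card := by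
    intro n hn
    rw [gf_one (by omega)]
    apply div_le_div_of_nonneg_right _ (by positivity)
    exact_mod_cast gf_two_le (2 * n)
  have hle2 : ∀ n : ℕ, 1 ≤ n → (gf 2 (2 * n) : ℝ) / (g (2 * n) : ℝ) ≤
      (gf 2 (2 * n) : ℝ) / (gf 1 (2 * n) : ℝ) := by
    intro n hn
    apply div_le_div_of_nonneg_left (by positivity) (by exact_mod_cast hpos n hn)
    rw [gf_one (by omega), g_eq]
    exact_mod_cast F1_le_GN (2 * n)
  have h1 : Tendsto (fun n : ℕ => (gf 2 (2 * n) : ℝ) / (gf 1 (2 * n) : ℝ)) atTop (𝓝 0) := by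
    apply squeeze_zero' (Eventually.of_forall fun n => by positivity) _ ratio_tendsto
    filter_upwards [eventually_ge_atTop 1] with n hn
    exact hle n hn
  refine ⟨hpos, h1, ?_⟩
  apply squeeze_zero' (Eventually.of_forall fun n => by positivity) _ h1
  filter_upwards [eventually_ge_atTop 1] with n hn
  exact hle2 n hn

end Pool.Agent.Lib.MP_1c575b_co
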