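import Pool.Agent.Lib.MP_1c575b_co.Weird

set_option autoImplicit false

namespace Pool.Agent.Lib.MP_1c575b_co

open Finset

lemma exists_S {N h : ℕ} (hh : ∑ i ∈ Finset.Icc 1 N, (1 : ℝ) / i ≤ h) (h1 : 1 ≤ h)
    {s : Multiset ℕ} (hpos : ∀ x ∈ s, 0 < x) (hsum : s.sum = N) (hcard : 2 ≤ Multiset.card s) :
    ∃ S : Finset ℕ, S.card ≤ 4 * h ∧ Multiset.card s + 1 ≤ ∑ r ∈ S, (r + 1) * s.count r := by
  classical
  set m := Multiset.card s with hm
  have hmsum : ∑ r ∈ Finset.Icc 1 N, s.count r = m := by
    apply Multiset.sum_count_eq_card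
    intro a ha
    rw [Finset.mem_Icc]
    exact ⟨hpos a ha, le_of_mem_part hsum ha⟩
  set T := (Finset.Icc 1 N).filter (fun r => m - 1 ≤ 2 * h * (r * s.count r)) with hT
  by_cases hTc : T.card ≤ 4 * h
  · refine ⟨T, hTc, ?_⟩
    have hsplit : ∑ r ∈ T, s.count r +
        ∑ r ∈ (Finset.Icc 1 N).filter (fun r => ¬ (m - 1 ≤ 2 * h * (r * s.count r))), s.count r = m := by
      rw [hT, Finset.sum_filter_add_sum_filter_not, hmsum]
    have hrest : 2 * ∑ r ∈ (Finset.Icc 1 N).filter
        (fun r => ¬ (m - 1 ≤ 2 * h * (r * s.count r))), s.count r ≤ m - 1 := by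
      have hreal : (2 : ℝ) * ∑ r ∈ (Finset.Icc 1 N).filter
          (fun r => ¬ (m - 1 ≤ 2 * h * (r * s.count r))), (s.count r : ℝ) ≤ ((m - 1 : ℕ) : ℝ) := by
        have hterm : ∀ r ∈ (Finset.Icc 1 N).filter
            (fun r => ¬ (m - 1 ≤ 2 * h * (r * s.count r))),
            (s.count r : ℝ) ≤ ((m - 1 : ℕ) : ℝ) / (2 * h) * (1 / r) := by
          intro r hr
          rw [Finset.mem_filter, Finset.mem_Icc] at hr
          obtain ⟨⟨hr1, hr2⟩, hlt⟩ := hr
          have hlt' : 2 * h * (r * s.count r) ≤ m - 1 := by omega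
          have hlt'' : (2 * h * (r * s.count r) : ℝ) ≤ ((m - 1 : ℕ) : ℝ) := by exact_mod_cast hlt'
          have hr0 : (0 : ℝ) < r := by exact_mod_cast hr1
          have hh0 : (0 : ℝ) < h := by exact_mod_cast h1
          rw [div_mul_div_comm, mul_one, le_div_iff₀ (by positivity)]
          linarith
        have h2 := Finset.sum_le_sum hterm
        rw [← Finset.mul_sum] at h2
        have h3 : ∑ r ∈ (Finset.Icc 1 N).filter
            (fun r => ¬ (m - 1 ≤ 2 * h * (r * s.count r))), (1 : ℝ) / r ≤ h := by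
          refine le_trans (Finset.sum_le_sum_of_subset_of_nonneg (Finset.filter_subset _ _) ?_) hh
          intro i _ _
          positivity
        have hh0 : (0 : ℝ) < h := by exact_mod_cast h1
        have h4 : ((m - 1 : ℕ) : ℝ) / (2 * h) * ∑ r ∈ (Finset.Icc 1 N).filter
            (fun r => ¬ (m - 1 ≤ 2 * h * (r * s.count r))), (1 : ℝ) / r ≤
            ((m - 1 : ℕ) : ℝ) / (2 * h) * h := mul_le_mul_of_nonneg_left h3 (by positivity)
        have h5 : ((m - 1 : ℕ) : ℝ) / (2 * h) * h = ((m - 1 : ℕ) : ℝ) / 2 := by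
          field_simp
        linarith
      exact_mod_cast hreal
    have hT2 : m + 1 ≤ 2 * ∑ r ∈ T, s.count r := by omega
    have hT3 : 2 * ∑ r ∈ T, s.count r ≤ ∑ r ∈ T, (r + 1) * s.count r := by
      rw [Finset.mul_sum]
      apply Finset.sum_le_sum
      intro r hr
      rw [hT, Finset.mem_filter, Finset.mem_Icc] at hr
      apply Nat.mul_le_mul_right
      omega
    omega
  · push Not at hTc
    obtain ⟨S, hST, hSc⟩ := Finset.exists_subset_card_eq hTc.le
    refine ⟨S, hSc.le, ?_⟩
    have hmem : ∀ r ∈ S, m - 1 ≤ 2 * h * (r * s.count r) ∧ 1 ≤ r := by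
      intro r hr
      have := hST hr
      rw [hT, Finset.mem_filter, Finset.mem_Icc] at this
      exact ⟨this.2, this.1.1⟩
    have hone : ∀ r ∈ S, 1 ≤ s.count r := by
      intro r hr
      have h2 := (hmem r hr).1
      by_contra hc
      have h3 : s.count r = 0 := by omega
      rw [h3] at h2
      simp at h2
      omega
    have hsumA : 4 * h ≤ ∑ r ∈ S, s.count r := by
      rw [← hSc]
      have := Finset.card_nsmul_le_sum S (fun r => s.count r) 1 hone
      simpa using this
    have hsumB : 2 * (m - 1) ≤ ∑ r ∈ S, r * s.count r := by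
      have h2 := Finset.card_nsmul_le_sum S (fun r => 2 * h * (r * s.count r)) (m - 1)
        (fun r hr => (hmem r hr).1)
      rw [hSc, smul_eq_mul, ← Finset.mul_sum] at h2
      have h3 : 2 * h * (2 * (m - 1)) ≤ 2 * h * ∑ r ∈ S, r * s.count r := by
        calc 2 * h * (2 * (m - 1)) = 4 * h * (m - 1) := by ring
          _ ≤ _ := h2
      exact Nat.le_of_mul_le_mul_left h3 (by omega)
    have hexp : ∑ r ∈ S, (r + 1) * s.count r = ∑ r ∈ S, r * s.count r + ∑ r ∈ S, s.count r := by
      rw [← Finset.sum_add_distrib]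
      apply Finset.sum_congr rfl
      intro r _
      ring
    omega

lemma sum_succ_count (s : Multiset ℕ) (S : Finset ℕ) :
    ∑ r ∈ S, (r + 1) * s.count r = ((s.filter (fun x => x ∈ S)).map (fun x => x + 1)).sum := by
  classical
  induction s using Multiset.induction_on with
  | empty => simp
  | cons a s ih =>
    by_cases ha : a ∈ S
    · rw [Multiset.filter_cons_of_pos _ ha, Multiset.map_cons, Multiset.sum_cons, ← ih]
      have : ∀ r ∈ S, (r + 1) * (a ::ₘ s).count r =
          (if r = a then (a + 1) else 0) + (r + 1) * s.count r := by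
        intro r _
        rw [Multiset.count_cons]
        split_ifs with h
        · subst h; ring
        · ring
      rw [Finset.sum_congr rfl this, Finset.sum_add_distrib, Finset.sum_ite_eq' S a, if_pos ha]
    · rw [Multiset.filter_cons_of_neg _ ha, ← ih]
      apply Finset.sum_congr rfl
      intro r hr
      rw [Multiset.count_cons_of_ne (by rintro rfl; exact ha hr)]

/-- relation behind the map `Ψ` -/
def Rel2 (s μ : Multiset ℕ) (P τ : ℕ) (Q : Multiset ℕ) : Prop :=
  ∃ p t, s = p ::ₘ (Q + t) ∧ P = p + τ ∧ μ = P ::ₘ (Multiset.replicate (Q.sum - τ) 1 + t)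

lemma rel2_unique {s s' μ : Multiset ℕ} {P τ : ℕ} {Q : Multiset ℕ} (h : Rel2 s μ P τ Q)
    (h' : Rel2 s' μ P τ Q) : s = s' := by
  obtain ⟨p, t, hs, hP, hμ⟩ := h
  obtain ⟨p', t', hs', hP', hμ'⟩ := h'
  have hpp : p = p' := by omega
  have := hμ.symm.trans hμ'
  rw [Multiset.cons_inj_right, add_right_inj] at this
  rw [hs, hs', hpp, this]

lemma rel2_exists {N h : ℕ} (hh : ∑ i ∈ Finset.Icc 1 N, (1 : ℝ) / i ≤ h) (h1 : 1 ≤ h)
    (hN : 1 ≤ N) {s : Multiset ℕ} (hs : s ∈ GN N) :
    ∃ μ P τ Q, Rel2 s μ P τ Q ∧ μ ∈ F1 N ∧ P ≤ N ∧ τ ≤ N ∧ Q.toFinset.card ≤ 4 * h ∧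
      (∀ x ∈ Q, x ≤ N) ∧ Multiset.card Q ≤ N := by
  classical
  rw [mem_GN] at hs
  obtain ⟨hpos, hsum, hG⟩ := hs
  have hs0 : s ≠ 0 := by rintro rfl; simp at hsum; omega
  obtain ⟨p, hp⟩ := Multiset.exists_mem_of_ne_zero hs0
  have hsp : s = p ::ₘ s.erase p := (Multiset.cons_erase hp).symm
  have hcard : 2 ≤ Multiset.card s := by
    rw [hsp] at hG
    have h2 := hG.card_gt
    have h3 := hpos p hp
    rw [hsp, Multiset.card_cons]
    omega
  obtain ⟨S, hSc, hS⟩ := exists_S hh h1 hpos hsum hcard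
  set Q := (s.erase p).filter (fun x => x ∈ S) with hQ
  set t := (s.erase p).filter (fun x => ¬ x ∈ S) with ht
  have hQt : Q + t = s.erase p := Multiset.filter_add_not _ _
  have hst : s = p ::ₘ (Q + t) := by rw [hQt]; exact hsp
  have hQs : ∀ x ∈ Q, x ∈ s := fun x hx =>
    Multiset.mem_of_mem_erase (Multiset.mem_of_mem_filter hx)
  have hts : ∀ x ∈ t, x ∈ s := fun x hx =>
    Multiset.mem_of_mem_erase (Multiset.mem_of_mem_filter hx)
  have hcs : Multiset.card s = 1 + (Multiset.card Q + Multiset.card t) := by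
    conv_lhs => rw [hst]
    rw [Multiset.card_cons, Multiset.card_add]
    ring
  have hss : N = p + (Q.sum + t.sum) := by
    rw [← hsum]
    conv_lhs => rw [hst]
    rw [Multiset.sum_cons, Multiset.sum_add]
  have hbig : Multiset.card s ≤ p + Q.sum + Multiset.card Q := by
    rw [sum_succ_count, hsp, Multiset.filter_cons, ← hQ] at hS
    rw [← hsp] at hS
    have hQsum : (Q.map (fun x => x + 1)).sum = Q.sum + Multiset.card Q := by
      rw [Multiset.sum_map_add]
      simp
    rw [Multiset.map_add, Multiset.sum_add, hQsum] at hS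
    split_ifs at hS with hpS
    · simp at hS
      omega
    · simp at hS
      omega
  have hn : ¬ Gr ((p + Q.sum) ::ₘ t) := by
    intro hc
    have := hc.card_gt
    omega
  have hsplit : Gr (p ::ₘ (Multiset.replicate Q.sum 1 + t)) := by
    apply Gr.split_all
    rw [← hst]
    exact hG
  obtain ⟨τ, hτ, hFC⟩ := exists_tight hsplit (hpos p hp) (fun y hy => hpos y (hts y hy)) hn
  refine ⟨_, p + τ, τ, Q, ⟨p, t, hst, rfl, rfl⟩, ?_, by omega, by omega, ?_, ?_, ?_⟩
  · rw [mem_F1]
    refine ⟨?_, ?_, hFC⟩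
    · intro y hy
      rw [Multiset.mem_cons, Multiset.mem_add] at hy
      rcases hy with rfl | hy | hy
      · have := hpos p hp; omega
      · rw [Multiset.eq_of_mem_replicate hy]; norm_num
      · exact hpos y (hts y hy)
    · rw [Multiset.sum_cons, Multiset.sum_add, Multiset.sum_replicate, smul_eq_mul, mul_one]
      omega
  · refine le_trans (Finset.card_le_card ?_) hSc
    intro x hx
    rw [Multiset.mem_toFinset, hQ, Multiset.mem_filter] at hx
    exact hx.2
  · intro x hx
    exact le_of_mem_part hsum (hQs x hx)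
  · have := card_le_of_part hsum hpos
    omega

lemma psi_bound {N h : ℕ} (hh : ∑ i ∈ Finset.Icc 1 N, (1 : ℝ) / i ≤ h) (h1 : 1 ≤ h)
    (hN : 1 ≤ N) : (GN N).card ≤ (F1 N).card * ((N + 1) * (N + 1)) ^ (4 * h + 1) := by
  classical
  have hex : ∀ s, s ∈ GN N → ∃ q : (Multiset ℕ × (ℕ × ℕ)) × (Fin (4 * h) → Fin (N + 1) × Fin (N + 1)),
      Rel2 s q.1.1 q.1.2.1 q.1.2.2 (∑ i, Multiset.replicate ((q.2 i).2 : ℕ) ((q.2 i).1 : ℕ)) ∧
      q.1.1 ∈ F1 N ∧ q.1.2.1 ≤ N ∧ q.1.2.2 ≤ N := by
    intro s hs
    obtain ⟨μ, P, τ, Q, hR, hμ, hP, hτ, hQ1, hQ2, hQ3⟩ := rel2_exists hh h1 hN hs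
    obtain ⟨f, hf⟩ := code_exists N (4 * h) Q hQ1 hQ2 hQ3
    refine ⟨⟨⟨μ, P, τ⟩, f⟩, ?_, hμ, hP, hτ⟩
    simp only
    rw [← hf]
    exact hR
  choose! F hF using hex
  have hcard : (GN N).card ≤
      ((F1 N ×ˢ (Finset.range (N + 1) ×ˢ Finset.range (N + 1))) ×ˢ
        (Finset.univ : Finset (Fin (4 * h) → Fin (N + 1) × Fin (N + 1)))).card := by
    apply Finset.card_le_card_of_injOn F
    · intro s hs
      obtain ⟨_, h2, h3, h4⟩ := hF s hs
      simp only [Finset.coe_product, Set.mem_prod, Finset.mem_coe, Finset.mem_range,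
        Finset.mem_univ, and_true]
      exact ⟨h2, by omega, by omega⟩
    · intro s hs s' hs' heq
      have h2 := (hF s hs).1
      have h3 := (hF s' hs').1
      rw [heq] at h2
      exact rel2_unique h2 h3
  refine hcard.trans (le_of_eq ?_)
  rw [Finset.card_product, Finset.card_product, Finset.card_product, Finset.card_range,
    Finset.card_univ, Fintype.card_fun, Fintype.card_prod, Fintype.card_fin, Fintype.card_fin]
  rw [pow_succ]
  ring

lemma Gr.zero : Gr 0 := ⟨Fin 0, inferInstance, ⊥, by simp [dms]⟩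

lemma Gr.star (a : ℕ) : Gr (a ::ₘ Multiset.replicate a 1) := by
  classical
  let G : SimpleGraph (Option (Fin a)) :=
    { Adj := fun u v => (u = none ∧ v ≠ none) ∨ (v = none ∧ u ≠ none)
      symm := ⟨fun u v h => Or.symm h⟩
      loopless := ⟨fun u h => by tauto⟩ }
  refine ⟨Option (Fin a), inferInstance, G, ?_⟩
  have h0 : dg G none = a := by
    unfold dg
    rw [Fintype.sum_option]
    simp [G]
  have h1 : ∀ i : Fin a, dg G (some i) = 1 := by
    intro i
    unfold dg
    rw [Fintype.sum_option]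
    simp [G]
  unfold dms
  have hu : (Finset.univ : Finset (Option (Fin a))).val.map (dg G) =
      dg G none ::ₘ (Finset.univ : Finset (Fin a)).val.map (fun v => dg G (some v)) :=
    map_univ_option (dg G)
  rw [hu, h0]
  congr 1
  rw [Multiset.eq_replicate]
  constructor
  · simp
  · intro b hb
    rw [Multiset.mem_map] at hb
    obtain ⟨i, _, rfl⟩ := hb
    exact h1 i

lemma Gr.ones (k : ℕ) : Gr (Multiset.replicate (2 * k) 1) := by
  induction k with
  | zero => simpa using Gr.zero
  | succ k ih =>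
    have h1 : Gr (Multiset.replicate 2 1) := ⟨_, inferInstance, _, dms_top 1⟩
    have h2 := ih.add h1
    rwa [← Multiset.replicate_add] at h2

lemma Gr.stars (A : Finset ℕ) : Gr (A.val + Multiset.replicate (∑ a ∈ A, a) 1) := by
  classical
  induction A using Finset.induction_on with
  | empty => simpa using Gr.zero
  | insert a A ha ih =>
    have h := ih.add (Gr.star a)
    rw [Finset.insert_val_of_notMem ha, Finset.sum_insert ha, Multiset.replicate_add]
    have heq : A.val + Multiset.replicate (∑ a ∈ A, a) 1 + (a ::ₘ Multiset.replicate a 1) =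
        a ::ₘ A.val + (Multiset.replicate a 1 + Multiset.replicate (∑ x ∈ A, x) 1) := by
      rw [Multiset.add_cons, Multiset.cons_add]
      congr 1
      abel
    rw [← heq]
    exact h

lemma GN_lower {n l : ℕ} (h : (l + 1) * (l + 2) ≤ 2 * n) : 2 ^ l ≤ (GN (2 * n)).card := by
  classical
  have hc : ((Finset.Icc 2 (l + 1)).powerset).card = 2 ^ l := by
    rw [Finset.card_powerset, Nat.card_Icc]
    congr 1
  rw [← hc]
  have hsumA : ∀ A ∈ (Finset.Icc 2 (l + 1)).powerset, 2 * ∑ a ∈ A, a ≤ 2 * n := by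
    intro A hA
    rw [Finset.mem_powerset] at hA
    have h1 : ∑ a ∈ A, a ≤ ∑ a ∈ Finset.range (l + 2), a := by
      apply Finset.sum_le_sum_of_subset
      intro x hx
      have := hA hx
      rw [Finset.mem_Icc] at this
      rw [Finset.mem_range]
      omega
    have h2 : (∑ a ∈ Finset.range (l + 2), a) * 2 = (l + 2) * (l + 2 - 1) :=
      Finset.sum_range_id_mul_two (l + 2)
    have h3 : (l + 2) * (l + 2 - 1) = (l + 1) * (l + 2) := by
      have : l + 2 - 1 = l + 1 := by omega
      rw [this]; ring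
    omega
  apply Finset.card_le_card_of_injOn
    (fun A => A.val + Multiset.replicate (2 * n - ∑ a ∈ A, a) 1)
  · intro A hA
    rw [Finset.mem_coe] at hA ⊢
    have hs := hsumA A hA
    rw [Finset.mem_powerset] at hA
    rw [mem_GN]
    refine ⟨?_, ?_, ?_⟩
    · intro x hx
      rw [Multiset.mem_add] at hx
      rcases hx with hx | hx
      · have := hA hx
        rw [Finset.mem_Icc] at this
        omega
      · rw [Multiset.eq_of_mem_replicate hx]; norm_num
    · rw [Multiset.sum_add, Multiset.sum_replicate, smul_eq_mul, mul_one]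
      have : A.val.sum = ∑ a ∈ A, a := by
        rw [Finset.sum_eq_multiset_sum, Multiset.map_id']
      rw [this]
      omega
    · have h1 := (Gr.stars A).add (Gr.ones (n - ∑ a ∈ A, a))
      have h2 : A.val + Multiset.replicate (2 * n - ∑ a ∈ A, a) 1 =
          A.val + Multiset.replicate (∑ a ∈ A, a) 1 + Multiset.replicate (2 * (n - ∑ a ∈ A, a)) 1 := by
        rw [add_assoc, ← Multiset.replicate_add]
        congr 2
        omega
      simp only
      rw [h2]
      exact h1
  · intro A hA B hB heq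
    rw [Finset.mem_coe, Finset.mem_powerset] at hA hB
    simp only at heq
    ext x
    have hx := congrArg (Multiset.count x) heq
    rw [Multiset.count_add, Multiset.count_add, Multiset.count_replicate,
      Multiset.count_replicate] at hx
    by_cases hx1 : x = 1
    · subst hx1
      constructor
      · intro h
        have := hA h
        rw [Finset.mem_Icc] at this
        omega
      · intro h
        have := hB h
        rw [Finset.mem_Icc] at this
        omega
    · rw [if_neg (Ne.symm hx1), if_neg (Ne.symm hx1), add_zero, add_zero] at hx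
      rw [← Finset.mem_val, ← Finset.mem_val, ← Multiset.count_pos, ← Multiset.count_pos, hx]

end Pool.Agent.Lib.MP_1c575b_co
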