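import Pool.Agent.Lib.MP_1c575b_co.Graph

set_option autoImplicit false

namespace Pool.Agent.Lib.MP_1c575b_co

open Finset

/-- the multiset of degrees of all vertices -/
noncomputable def dms {V : Type} [Fintype V] (G : SimpleGraph V) : Multiset ℕ :=
  Finset.univ.val.map (dg G)

/-- a multiset of naturals (zeros allowed) is graphical -/
def Gr (s : Multiset ℕ) : Prop :=
  ∃ (V : Type) (_ : Fintype V) (G : SimpleGraph V), dms G = s

/-- forcibly connected -/
def FC (s : Multiset ℕ) : Prop :=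
  Gr s ∧ ∀ (V : Type) [Fintype V] (G : SimpleGraph V), dms G = s → G.Preconnected

lemma exists_erase_of_map_eq_cons {V : Type} [DecidableEq V] {F : Finset V} {d : V → ℕ} {a : ℕ}
    {t : Multiset ℕ} (h : F.val.map d = a ::ₘ t) :
    ∃ x ∈ F, d x = a ∧ (F.erase x).val.map d = t := by
  have ha : a ∈ F.val.map d := by rw [h]; exact Multiset.mem_cons_self a t
  rw [Multiset.mem_map] at ha
  obtain ⟨x, hx, hxa⟩ := ha
  refine ⟨x, hx, hxa, ?_⟩
  have h1 : F.val = x ::ₘ (F.erase x).val := by
    rw [Finset.erase_val]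
    exact (Multiset.cons_erase hx).symm
  rw [h1, Multiset.map_cons, hxa] at h
  exact (Multiset.cons_inj_right a).mp h

lemma map_eq_cons_erase {V : Type} [DecidableEq V] {F : Finset V} (d : V → ℕ) {x : V} (hx : x ∈ F) :
    F.val.map d = d x ::ₘ (F.erase x).val.map d := by
  have h1 : F.val = x ::ₘ (F.erase x).val := by
    rw [Finset.erase_val]
    exact (Multiset.cons_erase hx).symm
  conv_lhs => rw [h1]
  rw [Multiset.map_cons]

lemma map_congr_fin {V : Type} {F : Finset V} {d d' : V → ℕ} (h : ∀ x ∈ F, d x = d' x) :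
    F.val.map d = F.val.map d' :=
  Multiset.map_congr rfl h

lemma Gr.zero_cons_iff {s : Multiset ℕ} (h : Gr (0 ::ₘ s)) : Gr s := by
  classical
  obtain ⟨V, _, G, hG⟩ := h
  obtain ⟨x, -, hx0, hxt⟩ := exists_erase_of_map_eq_cons (d := dg G) hG
  have hnadj : ∀ u, ¬ G.Adj x u := fun u hu => by
    have := dg_pos_of_adj hu
    omega
  refine ⟨{u : V // u ≠ x}, inferInstance, G.comap Subtype.val, ?_⟩
  have hdg : ∀ u : {u : V // u ≠ x}, dg (G.comap Subtype.val) u = dg G u.1 := by
    intro u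
    unfold dg
    have : ∑ v : V, (if G.Adj u.1 v then 1 else 0 : ℕ) =
        ∑ v ∈ Finset.univ.erase x, (if G.Adj u.1 v then 1 else 0 : ℕ) := by
      rw [← Finset.add_sum_erase Finset.univ _ (Finset.mem_univ x)]
      have : ¬ G.Adj u.1 x := fun h => hnadj _ h.symm
      simp [this]
    rw [this]
    rw [Finset.sum_subtype (Finset.univ.erase x) (p := fun u => u ≠ x) (by simp)
      (fun v => (if G.Adj u.1 v then 1 else 0 : ℕ))]
    rfl
  rw [← hxt]
  unfold dms
  rw [Multiset.map_congr rfl (fun u _ => hdg u)]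
  have h2 : (Finset.univ.erase x).val =
      (Finset.univ : Finset {u : V // u ≠ x}).val.map Subtype.val := by
    have : (Finset.univ.erase x) =
      (Finset.univ : Finset {u : V // u ≠ x}).map (Function.Embedding.subtype _) := by
      ext u
      simp
    rw [this, Finset.map_val]
    rfl
  rw [h2, Multiset.map_map]
  rfl

lemma map_univ_option {V : Type} [Fintype V] (f : Option V → ℕ) :
    (Finset.univ : Finset (Option V)).val.map f =
      f none ::ₘ (Finset.univ : Finset V).val.map (fun v => f (some v)) := by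
  rw [univ_option]
  simp [Finset.insertNone]

lemma Gr.split {a b : ℕ} {t : Multiset ℕ} (h : Gr ((a + b) ::ₘ t)) : Gr (a ::ₘ b ::ₘ t) := by
  classical
  obtain ⟨V, _, G, hG⟩ := h
  obtain ⟨x, -, hx, hxt⟩ := exists_erase_of_map_eq_cons (d := dg G) hG
  obtain ⟨G', h1, h2, h3⟩ := split_aux (G := G) (x := x) (b := b) (by omega)
  refine ⟨Option V, inferInstance, G', ?_⟩
  unfold dms
  have hu : (Finset.univ : Finset (Option V)).val.map (dg G') =
      dg G' none ::ₘ (Finset.univ : Finset V).val.map (fun v => dg G' (some v)) :=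
    map_univ_option (dg G')
  rw [hu, h1, Multiset.cons_swap a b t]
  congr 1
  rw [map_eq_cons_erase (fun v => dg G' (some v)) (Finset.mem_univ x)]
  have h4 : dg G' (some x) = a := by omega
  rw [h4]
  congr 1
  rw [← hxt]
  apply map_congr_fin
  intro u hu
  exact h3 u (Finset.ne_of_mem_erase hu)

lemma Gr.lower2 {q : ℕ} {t : Multiset ℕ} (h : Gr ((q + 2) ::ₘ t)) (ht : ∀ y ∈ t, y < q + 2) :
    Gr (q ::ₘ t) := by
  classical
  obtain ⟨V, _, G, hG⟩ := h
  obtain ⟨x, -, hx, hxt⟩ := exists_erase_of_map_eq_cons (d := dg G) hG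
  have hlt : ∀ u, u ≠ x → dg G u < dg G x := by
    intro u hu
    rw [hx]
    apply ht
    rw [← hxt, Multiset.mem_map]
    refine ⟨u, ?_, rfl⟩
    rw [Finset.mem_val, Finset.mem_erase]
    exact ⟨hu, Finset.mem_univ _⟩
  obtain ⟨G', h1, h2⟩ := lower_aux (G := G) (x := x) hlt (by omega)
  refine ⟨V, inferInstance, G', ?_⟩
  unfold dms
  rw [map_eq_cons_erase (dg G') (Finset.mem_univ x)]
  have h4 : dg G' x = q := by omega
  rw [h4]
  congr 1
  rw [← hxt]
  apply map_congr_fin
  intro u hu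
  exact h2 u (Finset.ne_of_mem_erase hu)

lemma dms_sum {V W : Type} [Fintype V] [Fintype W] (G : SimpleGraph V) (H : SimpleGraph W) :
    dms (G.sum H) = dms G + dms H := by
  classical
  unfold dms
  have hu : (Finset.univ : Finset (V ⊕ W)).val =
      (Finset.univ : Finset V).val.map Sum.inl + (Finset.univ : Finset W).val.map Sum.inr := by
    rw [← Finset.univ_disjSum_univ]
    rfl
  rw [hu, Multiset.map_add, Multiset.map_map, Multiset.map_map]
  congr 1
  · apply Multiset.map_congr rfl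
    intro v _
    exact dg_sum_inl G H v
  · apply Multiset.map_congr rfl
    intro v _
    exact dg_sum_inr G H v

lemma Gr.add {s t : Multiset ℕ} (hs : Gr s) (ht : Gr t) : Gr (s + t) := by
  obtain ⟨V, _, G, hG⟩ := hs
  obtain ⟨W, _, H, hH⟩ := ht
  exact ⟨V ⊕ W, inferInstance, G.sum H, by rw [dms_sum, hG, hH]⟩

lemma dms_top (r : ℕ) : dms (⊤ : SimpleGraph (Fin (r + 1))) = Multiset.replicate (r + 1) r := by
  classical
  unfold dms
  rw [Multiset.eq_replicate]
  constructor
  · simp
  · intro b hb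
    rw [Multiset.mem_map] at hb
    obtain ⟨v, _, rfl⟩ := hb
    have key : dg (⊤ : SimpleGraph (Fin (r + 1))) v = ∑ u, (if v ≠ u then 1 else 0 : ℕ) := by
      unfold dg
      apply Finset.sum_congr rfl
      intro u _
      by_cases h : v = u <;> simp [h]
    rw [key, Finset.sum_boole, Finset.filter_ne, Finset.card_erase_of_mem (Finset.mem_univ _)]
    simp

lemma Gr.card_gt {p : ℕ} {t : Multiset ℕ} (h : Gr (p ::ₘ t)) : p ≤ Multiset.card t := by
  classical
  obtain ⟨V, _, G, hG⟩ := h
  obtain ⟨x, -, hx, hxt⟩ := exists_erase_of_map_eq_cons (d := dg G) hG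
  rw [← hx, ← hxt, Multiset.card_map, dg_eq_degree]
  have : G.degree x < Fintype.card V := G.degree_lt_card_verts x
  rw [Finset.erase_val, Multiset.card_erase_of_mem (Finset.mem_univ_val x)]
  rw [Finset.card_val, Finset.card_univ, Nat.pred_eq_sub_one]
  omega

/-- Claim A -/
lemma FC_of_not_raise {p : ℕ} {t : Multiset ℕ} (hG : Gr (p ::ₘ 1 ::ₘ t)) (hp : 0 < p)
    (ht : ∀ y ∈ t, 0 < y) (hn : ¬ Gr ((p + 1) ::ₘ t)) : FC (p ::ₘ 1 ::ₘ t) := by
  classical
  refine ⟨hG, ?_⟩
  intro V _ G hd
  by_contra hc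
  apply hn
  obtain ⟨x, -, hx, hxt⟩ := exists_erase_of_map_eq_cons (d := dg G) hd
  obtain ⟨v, hv0, hv, hvt⟩ := exists_erase_of_map_eq_cons (d := dg G) hxt
  have hvx : v ≠ x := Finset.ne_of_mem_erase hv0
  have hpos : ∀ u, 0 < dg G u := by
    intro u
    by_cases hux : u = x
    · rw [hux, hx]; exact hp
    · by_cases huv : u = v
      · rw [huv, hv]; norm_num
      · apply ht
        rw [← hvt, Multiset.mem_map]
        refine ⟨u, ?_, rfl⟩
        rw [Finset.mem_val, Finset.mem_erase, Finset.mem_erase]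
        exact ⟨huv, hux, Finset.mem_univ _⟩
  obtain ⟨G', h1, h2, h3⟩ := raise_aux (Ne.symm hvx) hv hpos hc
  apply Gr.zero_cons_iff
  refine ⟨V, inferInstance, G', ?_⟩
  unfold dms
  rw [map_eq_cons_erase (dg G') (Finset.mem_univ v), h2]
  congr 1
  rw [map_eq_cons_erase (dg G') (show x ∈ Finset.univ.erase v by simp [Ne.symm hvx]), h1, hx]
  congr 1
  rw [← hvt, Finset.erase_right_comm]
  apply map_congr_fin
  intro u hu
  simp only [Finset.mem_erase] at hu
  exact h3 u hu.2.1 hu.1

lemma Gr.split_rep {p r : ℕ} (t : Multiset ℕ) : ∀ j : ℕ, Gr ((p + r * j) ::ₘ t) →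
    Gr (p ::ₘ (Multiset.replicate j r + t)) := by
  intro j
  induction j generalizing t with
  | zero => intro h; simpa using h
  | succ j ih =>
    intro h
    have h1 : Gr ((p + r * j) ::ₘ r ::ₘ t) := by
      apply Gr.split
      have : p + r * j + r = p + r * (j + 1) := by ring
      rw [this]
      exact h
    have h2 := ih _ h1
    rw [Multiset.replicate_succ, Multiset.cons_add]
    rwa [Multiset.add_cons] at h2

lemma Gr.lower_rep {p : ℕ} {t : Multiset ℕ} (ht : ∀ y ∈ t, y ≤ p) : ∀ i : ℕ,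
    Gr ((p + 2 * i) ::ₘ t) → Gr (p ::ₘ t) := by
  intro i
  induction i with
  | zero => intro h; simpa using h
  | succ i ih =>
    intro h
    apply ih
    apply Gr.lower2
    · have : p + 2 * i + 2 = p + 2 * (i + 1) := by ring
      rw [this]
      exact h
    · intro y hy
      have := ht y hy
      omega

/-- Claim B -/
lemma not_gr_of_FC {p r j : ℕ} {t : Multiset ℕ} (hs : FC (p ::ₘ (Multiset.replicate j r + t)))
    (hrp : r ≤ p) (ht : ∀ y ∈ t, y ≤ p) (hj : r + 1 ≤ j) : ¬ Gr ((p + r * j) ::ₘ t) := by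
  intro h
  obtain ⟨i, rfl⟩ := Nat.exists_eq_add_of_le hj
  obtain ⟨k, hk⟩ : ∃ k, r * (r + 1) = 2 * k := by
    have := Nat.even_mul_succ_self r
    rw [even_iff_exists_two_mul] at this
    exact this
  have h1 : Gr ((p + r * (r + 1)) ::ₘ (Multiset.replicate i r + t)) := by
    apply Gr.split_rep
    have : p + r * (r + 1) + r * i = p + r * (r + 1 + i) := by ring
    rw [this]
    exact h
  rw [hk] at h1
  have h2 : Gr (p ::ₘ (Multiset.replicate i r + t)) := by
    apply Gr.lower_rep _ k h1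
    intro y hy
    rw [Multiset.mem_add] at hy
    rcases hy with hy | hy
    · rw [Multiset.eq_of_mem_replicate hy]; exact hrp
    · exact ht y hy
  obtain ⟨V, _, G, hG⟩ := h2
  have h3 : dms (G.sum (⊤ : SimpleGraph (Fin (r + 1)))) =
      p ::ₘ (Multiset.replicate (r + 1 + i) r + t) := by
    rw [dms_sum, hG, dms_top, Multiset.replicate_add (r + 1) i]
    simp only [Multiset.cons_add]
    congr 1
    abel
  have h4 := hs.2 _ _ h3
  have hpm : p ∈ dms G := by rw [hG]; exact Multiset.mem_cons_self _ _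
  unfold dms at hpm
  rw [Multiset.mem_map] at hpm
  obtain ⟨v, _, _⟩ := hpm
  exact not_reachable_sum G _ v 0 (h4 _ _)

/-- tightening -/
lemma exists_tight {p u : ℕ} {t : Multiset ℕ} (h : Gr (p ::ₘ (Multiset.replicate u 1 + t)))
    (hp : 0 < p) (ht : ∀ y ∈ t, 0 < y) (hn : ¬ Gr ((p + u) ::ₘ t)) :
    ∃ τ, τ < u ∧ FC ((p + τ) ::ₘ (Multiset.replicate (u - τ) 1 + t)) := by
  classical
  have hex : ∃ τ, τ ≤ u ∧ ¬ Gr ((p + τ) ::ₘ (Multiset.replicate (u - τ) 1 + t)) :=
    ⟨u, le_rfl, by simpa using hn⟩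
  have hspec := Nat.find_spec hex
  have hmin := fun m (hm : m < Nat.find hex) => Nat.find_min hex hm
  set τ := Nat.find hex with hτ
  have hτ0 : τ ≠ 0 := by
    intro h0
    rw [h0] at hspec
    exact hspec.2 (by simpa using h)
  obtain ⟨σ, hσ⟩ := Nat.exists_eq_succ_of_ne_zero hτ0
  have hlt : σ < u := by have := hspec.1; omega
  refine ⟨σ, hlt, ?_⟩
  have h1 : Gr ((p + σ) ::ₘ (Multiset.replicate (u - σ) 1 + t)) := by
    by_contra hc
    exact hmin σ (by omega) ⟨by omega, hc⟩
  have h2 : u - σ = (u - τ) + 1 := by omega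
  rw [h2, Multiset.replicate_succ, Multiset.cons_add] at h1 ⊢
  apply FC_of_not_raise h1 (by omega)
  · intro y hy
    rw [Multiset.mem_add] at hy
    rcases hy with hy | hy
    · rw [Multiset.eq_of_mem_replicate hy]; norm_num
    · exact ht y hy
  · have h3 : p + σ + 1 = p + τ := by omega
    rw [h3]
    exact hspec.2

/-- full splitting of a sub-multiset into ones -/
lemma Gr.split_all {p : ℕ} {t : Multiset ℕ} (Q : Multiset ℕ) (h : Gr (p ::ₘ (Q + t))) :
    Gr (p ::ₘ (Multiset.replicate Q.sum 1 + t)) := by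
  induction Q using Multiset.induction_on generalizing t with
  | empty => simpa using h
  | cons a Q ih =>
    have h1 : Gr (p ::ₘ (Q + (a ::ₘ t))) := by
      rw [Multiset.add_cons, ← Multiset.cons_add]
      exact h
    have h2 := ih h1
    rw [Multiset.add_cons, Multiset.cons_swap] at h2
    have h3 : Gr (0 ::ₘ (Multiset.replicate a 1 + (p ::ₘ (Multiset.replicate Q.sum 1 + t)))) := by
      apply Gr.split_rep
      simpa using h2
    have h4 := Gr.zero_cons_iff h3
    rw [Multiset.sum_cons, Multiset.replicate_add]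
    rw [Multiset.add_cons, ← add_assoc] at h4
    exact h4

end Pool.Agent.Lib.MP_1c575b_co
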