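import Pool.Agent.Lib.MP_1c575b_co.Count

set_option autoImplicit false

namespace Pool.Agent.Lib.MP_1c575b_co

open Finset

/-- the weird graphical partitions: few small parts, many part sizes -/
def WP (M K r : ℕ) (s : Multiset ℕ) : Prop :=
  (∀ i, 2 ≤ i → i ≤ r → s.count i < M) ∧ K + r ≤ s.toFinset.card

open Classical in
/-- the weird graphical partitions: few small parts, many part sizes -/
noncomputable def CW (N M K r : ℕ) : Finset (Multiset ℕ) := (GN N).filter (WP M K r)

lemma mem_CW {N M K r : ℕ} {s : Multiset ℕ} : s ∈ CW N M K r ↔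
    ((∀ x ∈ s, 0 < x) ∧ s.sum = N ∧ Gr s) ∧ (∀ i, 2 ≤ i → i ≤ r → s.count i < M) ∧
      K + r ≤ s.toFinset.card := by
  classical
  unfold CW
  rw [Finset.mem_filter, mem_GN]
  rfl

lemma Gr.split_mod {d r : ℕ} {t : Multiset ℕ} (h : Gr (d ::ₘ t)) :
    Gr (Multiset.replicate (d / r) r + (Multiset.replicate (d % r) 1 + t)) := by
  have h1 : Gr ((d % r + r * (d / r)) ::ₘ t) := by rw [Nat.mod_add_div]; exact h
  have h2 := Gr.split_rep t (d / r) h1
  have h3 : Gr ((0 + 1 * (d % r)) ::ₘ (Multiset.replicate (d / r) r + t)) := by simpa using h2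
  have h4 := Gr.zero_cons_iff (Gr.split_rep _ (d % r) h3)
  rw [add_left_comm]
  exact h4

lemma weird_step (N M K r : ℕ) (hr : 2 ≤ r) :
    K * (CW N M K r).card ≤ (M * r) * (CW N M K (r - 1)).card := by
  classical
  set T := (CW N M K r).sigma (fun s => s.toFinset.filter (fun d => r < d)) with hT
  have hlow : K * (CW N M K r).card ≤ T.card := by
    rw [hT, Finset.card_sigma, mul_comm, ← smul_eq_mul]
    apply Finset.card_nsmul_le_sum
    intro s hs
    rw [mem_CW] at hs
    obtain ⟨⟨hpos, hsum, hG⟩, hc, hK⟩ := hs
    have h1 : (s.toFinset.filter (fun d => r < d)).card + (s.toFinset.filter (fun d => ¬ r < d)).card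
        = s.toFinset.card := Finset.card_filter_add_card_filter_not _
    have h2 : (s.toFinset.filter (fun d => ¬ r < d)).card ≤ r := by
      have : s.toFinset.filter (fun d => ¬ r < d) ⊆ Finset.Icc 1 r := by
        intro x hx
        rw [Finset.mem_filter, Multiset.mem_toFinset] at hx
        rw [Finset.mem_Icc]
        exact ⟨hpos x hx.1, by omega⟩
      have := Finset.card_le_card this
      simpa using this
    omega
  have hup : T.card ≤ ((CW N M K (r - 1)) ×ˢ (Finset.range M ×ˢ Finset.range r)).card := by
    apply Finset.card_le_card_of_injOn (fun q => (Multiset.replicate (q.2 / r) r +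
      (Multiset.replicate (q.2 % r) 1 + q.1.erase q.2), (q.1.count r, q.2 % r)))
    · rintro ⟨s, d⟩ hq
      rw [Finset.mem_coe, hT, Finset.mem_sigma, Finset.mem_filter, Multiset.mem_toFinset] at hq
      rw [mem_CW] at hq
      obtain ⟨⟨⟨hpos, hsum, hG⟩, hc, hK⟩, hd, hrd⟩ := hq
      simp only at hpos hsum hG hc hK hd hrd
      have hsd : s = d ::ₘ s.erase d := (Multiset.cons_erase hd).symm
      simp only [Finset.coe_product, Set.mem_prod, Finset.mem_coe, Finset.mem_range]
      refine ⟨?_, hc r hr le_rfl, Nat.mod_lt _ (by omega)⟩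
      rw [mem_CW]
      refine ⟨⟨?_, ?_, ?_⟩, ?_, ?_⟩
      · intro x hx
        rw [Multiset.mem_add, Multiset.mem_add] at hx
        rcases hx with hx | hx | hx
        · rw [Multiset.eq_of_mem_replicate hx]; omega
        · rw [Multiset.eq_of_mem_replicate hx]; norm_num
        · exact hpos x (Multiset.mem_of_mem_erase hx)
      · rw [Multiset.sum_add, Multiset.sum_add, Multiset.sum_replicate, Multiset.sum_replicate,
          smul_eq_mul, smul_eq_mul, mul_one]
        have h1 : s.sum = d + (s.erase d).sum := by
          conv_lhs => rw [hsd]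
          rw [Multiset.sum_cons]
        have h2 : d / r * r + d % r = d := by rw [mul_comm]; exact Nat.div_add_mod d r
        omega
      · apply Gr.split_mod
        rw [← hsd]
        exact hG
      · intro i hi2 hir
        have hi' : i ≠ r := by omega
        have hid : i ≠ d := by omega
        rw [Multiset.count_add, Multiset.count_add, Multiset.count_erase_of_ne hid,
          Multiset.count_replicate, Multiset.count_replicate, if_neg (Ne.symm hi'),
          if_neg (by omega)]
        simpa using hc i hi2 (by omega)
      · have hsub : s.toFinset.erase d ⊆ (Multiset.replicate (d / r) r +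
            (Multiset.replicate (d % r) 1 + s.erase d)).toFinset := by
          intro x hx
          rw [Finset.mem_erase, Multiset.mem_toFinset] at hx
          rw [Multiset.mem_toFinset, Multiset.mem_add, Multiset.mem_add]
          exact Or.inr (Or.inr ((Multiset.mem_erase_of_ne hx.1).mpr hx.2))
        have h1 := Finset.card_le_card hsub
        rw [Finset.card_erase_of_mem (Multiset.mem_toFinset.mpr hd)] at h1
        omega
    · rintro ⟨s, d⟩ hq ⟨s', d'⟩ hq' heq
      rw [Finset.mem_coe, hT, Finset.mem_sigma, Finset.mem_filter, Multiset.mem_toFinset] at hq hq'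
      obtain ⟨hs, hd, hrd⟩ := hq
      obtain ⟨hs', hd', hrd'⟩ := hq'
      simp only [Prod.mk.injEq] at heq hd hd' hrd hrd'
      obtain ⟨h1, h2, h3⟩ := heq
      have hc := congrArg (Multiset.count r) h1
      rw [Multiset.count_add, Multiset.count_add, Multiset.count_add, Multiset.count_add,
        Multiset.count_erase_of_ne (by omega), Multiset.count_erase_of_ne (by omega), h2, h3,
        Multiset.count_replicate_self, Multiset.count_replicate_self] at hc
      have hdd : d / r = d' / r := by omega
      have hdd' : d = d' := by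
        rw [← Nat.div_add_mod d r, ← Nat.div_add_mod d' r, hdd, h3]
      subst hdd'
      rw [add_right_inj, add_right_inj] at h1
      have : s = s' := by
        rw [← Multiset.cons_erase hd, ← Multiset.cons_erase hd', h1]
      subst this
      rfl
  rw [Finset.card_product, Finset.card_product, Finset.card_range, Finset.card_range] at hup
  calc K * (CW N M K r).card ≤ T.card := hlow
    _ ≤ _ := hup
    _ = (M * r) * (CW N M K (r - 1)).card := by ring

lemma weird_bound (N M K : ℕ) : ∀ i R : ℕ, i + 1 ≤ R →
    K ^ i * (CW N M K (i + 1)).card ≤ (M * R) ^ i * (GN N).card := by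
  classical
  intro i
  induction i with
  | zero =>
    intro R _
    simp only [pow_zero, one_mul]
    unfold CW
    exact Finset.card_le_card (Finset.filter_subset _ _)
  | succ i ih =>
    intro R hR
    have h1 := weird_step N M K (i + 1 + 1) (by omega)
    simp only [Nat.add_sub_cancel] at h1
    have h2 := ih R (by omega)
    calc K ^ (i + 1) * (CW N M K (i + 1 + 1)).card
        = K ^ i * (K * (CW N M K (i + 1 + 1)).card) := by ring
      _ ≤ K ^ i * ((M * (i + 1 + 1)) * (CW N M K (i + 1)).card) := Nat.mul_le_mul_left _ h1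
      _ = (M * (i + 1 + 1)) * (K ^ i * (CW N M K (i + 1)).card) := by ring
      _ ≤ (M * R) * ((M * R) ^ i * (GN N).card) :=
          Nat.mul_le_mul (Nat.mul_le_mul_left _ hR) h2
      _ = (M * R) ^ (i + 1) * (GN N).card := by ring

lemma code_exists (N : ℕ) : ∀ (k : ℕ) (s : Multiset ℕ), s.toFinset.card ≤ k → (∀ x ∈ s, x ≤ N) →
    Multiset.card s ≤ N →
    ∃ f : Fin k → Fin (N + 1) × Fin (N + 1),
      s = ∑ i, Multiset.replicate ((f i).2 : ℕ) ((f i).1 : ℕ) := by
  classical
  intro k
  induction k with
  | zero =>
    intro s hs _ _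
    have : s = 0 := by
      rw [← Multiset.toFinset_eq_empty, ← Finset.card_eq_zero]
      omega
    exact ⟨fun i => (0, 0), by simp [this]⟩
  | succ k ih =>
    intro s hs hN hc
    by_cases h0 : s = 0
    · exact ⟨fun _ => (0, 0), by simp [h0]⟩
    · obtain ⟨x, hx⟩ := Multiset.exists_mem_of_ne_zero h0
      have hdec : s = Multiset.replicate (s.count x) x + s.filter (fun y => ¬ x = y) := by
        rw [← Multiset.filter_eq']
        conv_lhs => rw [← Multiset.filter_add_not (fun y => y = x) s]
        congr 1
        apply Multiset.filter_congr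
        intro y _
        rw [eq_comm]
      obtain ⟨f, hf⟩ := ih (s.filter (fun y => ¬ x = y)) (by
        have hsub : (s.filter (fun y => ¬ x = y)).toFinset ⊆ s.toFinset.erase x := by
          intro y hy
          rw [Multiset.mem_toFinset, Multiset.mem_filter] at hy
          rw [Finset.mem_erase, Multiset.mem_toFinset]
          exact ⟨fun h => hy.2 h.symm, hy.1⟩
        have h1 := Finset.card_le_card hsub
        rw [Finset.card_erase_of_mem (Multiset.mem_toFinset.mpr hx)] at h1
        omega) (fun y hy => hN y (Multiset.mem_of_mem_filter hy))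
        ((Multiset.card_le_card (Multiset.filter_le _ _)).trans hc)
      refine ⟨Fin.cons (⟨x, by have := hN x hx; omega⟩,
        ⟨s.count x, by have := Multiset.count_le_card x s; omega⟩) f, ?_⟩
      rw [Fin.sum_univ_succ]
      simp only [Fin.cons_zero, Fin.cons_succ]
      rw [← hf]
      exact hdec

lemma few_sizes (N k : ℕ) :
    ((Pt N).filter (fun s => s.toFinset.card ≤ k)).card ≤ ((N + 1) * (N + 1)) ^ k := by
  classical
  have h : (Pt N).filter (fun s => s.toFinset.card ≤ k) ⊆
      (Finset.univ : Finset (Fin k → Fin (N + 1) × Fin (N + 1))).image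
        (fun f => ∑ i, Multiset.replicate ((f i).2 : ℕ) ((f i).1 : ℕ)) := by
    intro s hs
    rw [Finset.mem_filter, mem_Pt] at hs
    obtain ⟨⟨hpos, hsum⟩, hk⟩ := hs
    obtain ⟨f, hf⟩ := code_exists N k s hk (fun x hx => le_of_mem_part hsum hx)
      (card_le_of_part hsum hpos)
    rw [Finset.mem_image]
    exact ⟨f, Finset.mem_univ _, hf.symm⟩
  refine (Finset.card_le_card h).trans (Finset.card_image_le.trans ?_)
  simp

end Pool.Agent.Lib.MP_1c575b_co
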